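import Mathlib

/-!
Reductions for the diagonal method (property D): from a sequence `x 1, ..., x (m-1)` in `ZMod m`
and from a symmetric half sequence `y` (read modulo `2 m`) to the ordering criterion.
-/

set_option autoImplicit false

namespace DNeo

/-- The ordering criterion for `r` (Keedwell): the residues `2, ..., r-2` modulo `r-1` can be
ordered so that all sums of initial segments are distinct and nonzero, and the same holds after
lowering each term by `1`. -/
def Good (r : ℕ) : Prop :=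
  ∃ σ : Equiv.Perm (Fin (r - 3)),
    (Function.Injective
        (fun k : Fin (r - 3) => ∑ i ∈ Finset.Iic k, (((σ i : ℕ) + 2 : ℕ) : ZMod (r - 1))) ∧
      ∀ k : Fin (r - 3), ∑ i ∈ Finset.Iic k, (((σ i : ℕ) + 2 : ℕ) : ZMod (r - 1)) ≠ 0) ∧
    (Function.Injective
        (fun k : Fin (r - 3) => ∑ i ∈ Finset.Iic k, (((σ i : ℕ) + 1 : ℕ) : ZMod (r - 1))) ∧
      ∀ k : Fin (r - 3), ∑ i ∈ Finset.Iic k, (((σ i : ℕ) + 1 : ℕ) : ZMod (r - 1)) ≠ 0)

theorem sum_Iic_fin {n : ℕ} {M : Type*} [AddCommMonoid M] (g : ℕ → M) (k : Fin n) :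
    ∑ i ∈ Finset.Iic k, g (i : ℕ) = ∑ i ∈ Finset.range ((k : ℕ) + 1), g i := by
  rw [show Finset.range ((k : ℕ) + 1) = (Finset.Iic k).map Fin.valEmbedding from ?_]
  · rw [Finset.sum_map]; rfl
  · ext a
    simp only [Finset.mem_range, Finset.mem_map, Finset.mem_Iic, Fin.valEmbedding_apply]
    constructor
    · intro h
      exact ⟨⟨a, by omega⟩, by rw [Fin.le_def]; simp only; omega, rfl⟩
    · rintro ⟨b, hb, rfl⟩
      rw [Fin.le_def] at hb
      omega

theorem good_of_seq (m : ℕ) (hm : 6 ≤ m) (x : ℕ → ZMod m)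
    (h1 : ∀ i j, 1 ≤ i → i < m → 1 ≤ j → j < m → x i = x j → i = j)
    (h2 : ∀ i j, 1 ≤ i → i < m → 1 ≤ j → j < m → x i - (i : ZMod m) = x j - (j : ZMod m) → i = j)
    (h3 : ∀ i j, 1 ≤ i → i < m - 1 → 1 ≤ j → j < m - 1 →
      x (i + 1) - x i = x (j + 1) - x j → i = j)
    (h4 : ∀ i, 1 ≤ i → i < m - 1 → x (i + 1) - x i ≠ 0 ∧ x (i + 1) - x i ≠ 1) :
    Good (m + 1) := by
  have hn : m + 1 - 3 = m - 2 := by omega
  have hmm : m + 1 - 1 = m := by omega
  unfold Good
  rw [hn, hmm]
  have : NeZero m := ⟨by omega⟩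
  have : Fact (1 < m) := ⟨by omega⟩
  set d : ℕ → ZMod m := fun k => x (k + 2) - x (k + 1) with hd
  have hval : ∀ k : Fin (m - 2), 2 ≤ (d k).val := by
    intro k
    have hk := k.2
    obtain ⟨h0, h1'⟩ := h4 (k + 1) (by omega) (by omega)
    have e0 : (d k).val ≠ 0 := fun h => h0 ((ZMod.val_eq_zero _).1 h)
    have e1 : (d k).val ≠ 1 := by
      intro h
      apply h1'
      have : (((d k).val : ℕ) : ZMod m) = ((1 : ℕ) : ZMod m) := by rw [h]
      rw [ZMod.natCast_zmod_val] at this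
      simpa [hd] using this
    omega
  have hlt : ∀ k : Fin (m - 2), (d k).val - 2 < m - 2 := by
    intro k
    have := ZMod.val_lt (d k)
    have := hval k
    omega
  let f : Fin (m - 2) → Fin (m - 2) := fun k => ⟨(d k).val - 2, hlt k⟩
  have hf : Function.Injective f := by
    intro a b hab
    have h := congrArg Fin.val hab
    simp only [f] at h
    have ha := hval a
    have hb := hval b
    have h' : (d a).val = (d b).val := by omega
    have h'' : d a = d b := ZMod.val_injective _ h'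
    have := h3 (a + 1) (b + 1) (by omega) (by have := a.2; omega) (by omega)
      (by have := b.2; omega) h''
    exact Fin.ext (by omega)
  let σ : Equiv.Perm (Fin (m - 2)) := Equiv.ofBijective f (Finite.injective_iff_bijective.1 hf)
  have hσ : ∀ i : Fin (m - 2), (σ i : ℕ) = (d i).val - 2 := fun i => rfl
  have hσ2 : ∀ i : Fin (m - 2), (((σ i : ℕ) + 2 : ℕ) : ZMod m) = x ((i : ℕ) + 2) - x ((i : ℕ) + 1) := by
    intro i
    have h := hval i
    rw [hσ, show (d i).val - 2 + 2 = (d i).val from by omega, ZMod.natCast_zmod_val]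
  have hσ1 : ∀ i : Fin (m - 2), (((σ i : ℕ) + 1 : ℕ) : ZMod m)
      = (x ((i : ℕ) + 2) - ((i : ℕ) + 2 : ℕ)) - (x ((i : ℕ) + 1) - ((i : ℕ) + 1 : ℕ)) := by
    intro i
    have h := hσ2 i
    push_cast at h ⊢
    linear_combination h
  have s2 : ∀ k : Fin (m - 2), ∑ i ∈ Finset.Iic k, (((σ i : ℕ) + 2 : ℕ) : ZMod m)
      = x ((k : ℕ) + 2) - x 1 := by
    intro k
    rw [Finset.sum_congr rfl (fun i _ => hσ2 i),
      sum_Iic_fin (fun i : ℕ => x (i + 2) - x (i + 1)) k]
    have := Finset.sum_range_sub (fun i => x (i + 1)) ((k : ℕ) + 1)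
    simpa [add_assoc] using this
  have s1 : ∀ k : Fin (m - 2), ∑ i ∈ Finset.Iic k, (((σ i : ℕ) + 1 : ℕ) : ZMod m)
      = (x ((k : ℕ) + 2) - ((k : ℕ) + 2 : ℕ)) - (x 1 - (1 : ℕ)) := by
    intro k
    rw [Finset.sum_congr rfl (fun i _ => hσ1 i),
      sum_Iic_fin (fun i : ℕ => (x (i + 2) - (i + 2 : ℕ)) - (x (i + 1) - (i + 1 : ℕ))) k]
    have := Finset.sum_range_sub (fun i : ℕ => x (i + 1) - ((i + 1 : ℕ) : ZMod m)) ((k : ℕ) + 1)
    simpa [add_assoc] using this
  refine ⟨σ, ⟨?_, ?_⟩, ?_, ?_⟩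
  · intro a b hab
    simp only [s2] at hab
    have := h1 (a + 2) (b + 2) (by omega) (by have := a.2; omega) (by omega)
      (by have := b.2; omega) (sub_left_injective hab)
    exact Fin.ext (by omega)
  · intro k
    rw [s2]
    intro h
    have := h1 (k + 2) 1 (by omega) (by have := k.2; omega) (by omega) (by omega) (sub_eq_zero.1 h)
    omega
  · intro a b hab
    simp only [s1] at hab
    have := h2 (a + 2) (b + 2) (by omega) (by have := a.2; omega) (by omega)
      (by have := b.2; omega) (sub_left_injective hab)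
    exact Fin.ext (by omega)
  · intro k
    rw [s1]
    intro h
    have := h2 (k + 2) 1 (by omega) (by have := k.2; omega) (by omega) (by omega) (sub_eq_zero.1 h)
    omega

end DNeo
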