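import Mathlib
import Pool.Agent.Lib.MP_162c7e_co.Basic

/-!
Lifting: finite data modulo an even number `g` give, for every `u` prime to `g` and to the slopes
used, a sequence modulo `g * u` with all the properties asked by the ordering criterion.
-/

set_option autoImplicit false

namespace DNeo

/-- The offset of a class after reversing it when its slope is negative. -/
def nrm (g : ℤ) (v b r : ℤ) : ℤ := v * r + b + (if v < 0 then g * (-v) else 0)

theorem rev_class (g u : ℕ) (hu : u % 2 = 1) (v b : ℤ) (r j : ℕ) (hj : j < u) :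
    ∃ t : ℤ, 0 ≤ t ∧ t < u ∧ (2 : ℤ) ∣ t - j ∧
      (u : ℤ) ∣ (v * ((g : ℤ) * j + r) + b) - (|v| * g * t + nrm g v b r) := by
  by_cases hv : v < 0
  · refine ⟨(u : ℤ) - 1 - j, by omega, by omega, by omega, ?_⟩
    refine ⟨v * g, ?_⟩
    rw [nrm, if_pos hv, abs_of_neg hv]
    ring
  · refine ⟨j, by omega, by omega, by simp, ?_⟩
    refine ⟨0, ?_⟩
    rw [nrm, if_neg hv, abs_of_nonneg (not_lt.1 hv)]
    ring

theorem inj_core (g u : ℕ) (hg : g % 2 = 0) (hg0 : 0 < g) (hu : u % 2 = 1)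
    (hgu : IsCoprime (u : ℤ) (g : ℤ)) (w v b : ℕ → ℤ)
    (hv : ∀ r < g, IsCoprime (u : ℤ) (v r))
    (h1 : ∀ r < g, ∀ s < g, (g : ℤ) ∣ w r - w s → r = s)
    (h2 : ∀ r < g, ∀ s < g, (g : ℤ) ∣ w r - w s - (g / 2 : ℕ) →
      |v r| = |v s| ∧ nrm g (v r) (b r) r = nrm g (v s) (b s) s)
    (k l : ℕ) (hk : k < g * u) (hl : l < g * u)
    (hw : (g : ℤ) ∣ (w (k % g) + (k / g : ℕ) * (g / 2 : ℕ)) -
      (w (l % g) + (l / g : ℕ) * (g / 2 : ℕ)))
    (hF : (u : ℤ) ∣ (v (k % g) * k + b (k % g)) - (v (l % g) * l + b (l % g))) : k = l := by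
  obtain ⟨H, hH⟩ : ∃ H, g = 2 * H := ⟨g / 2, by omega⟩
  have hH2 : g / 2 = H := by omega
  rw [hH2] at hw h2
  have hrk : k % g < g := Nat.mod_lt _ hg0
  have hrl : l % g < g := Nat.mod_lt _ hg0
  have hjk : k / g < u := Nat.div_lt_of_lt_mul hk
  have hjl : l / g < u := Nat.div_lt_of_lt_mul hl
  have ek : (k : ℤ) = (g : ℤ) * (k / g : ℕ) + (k % g : ℕ) := by
    exact_mod_cast (Nat.div_add_mod k g).symm
  have el : (l : ℤ) = (g : ℤ) * (l / g : ℕ) + (l % g : ℕ) := by
    exact_mod_cast (Nat.div_add_mod l g).symm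
  have hgz : (g : ℤ) = 2 * (H : ℤ) := by rw [hH]; push_cast; ring
  generalize hr : k % g = r at *
  generalize hj : k / g = j at *
  generalize hs : l % g = s at *
  generalize hi : l / g = i at *
  rcases Int.emod_two_eq_zero_or_one ((j : ℤ) - i) with hpar | hpar
  · obtain ⟨c, hc⟩ := Int.dvd_of_emod_eq_zero hpar
    have hd : (g : ℤ) ∣ w r - w s := by
      have : w r - w s = ((w r + (j : ℤ) * (H : ℤ)) - (w s + (i : ℤ) * (H : ℤ))) - (g : ℤ) * c := by
        rw [hgz]
        have : (j : ℤ) = i + 2 * c := by omega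
        rw [this]; ring
      rw [this]
      exact dvd_sub hw (dvd_mul_right _ _)
    have hrs := h1 r hrk s hrl hd
    subst hrs
    have hF' : (u : ℤ) ∣ v r * ((g : ℤ) * ((j : ℤ) - i)) := by
      have : v r * ((g : ℤ) * ((j : ℤ) - i)) = (v r * k + b r) - (v r * l + b r) := by
        rw [ek, el]; ring
      rw [this]; exact hF
    have h3 := (hv r hrk).dvd_of_dvd_mul_left hF'
    have h4 := hgu.dvd_of_dvd_mul_left h3
    obtain ⟨e, he⟩ := h4
    have he0 : e = 0 := by
      by_contra hne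
      rcases lt_or_gt_of_ne hne with h | h
      · have : (u : ℤ) * e ≤ -(u : ℤ) := by nlinarith
        omega
      · have : (u : ℤ) ≤ (u : ℤ) * e := by nlinarith
        omega
    rw [he0, mul_zero] at he
    have : (k : ℤ) = l := by
      rw [ek, el]
      have : (j : ℤ) = i := by omega
      rw [this]
    exact_mod_cast this
  · exfalso
    obtain ⟨c, hc⟩ : ∃ c, (j : ℤ) - i = 2 * c + 1 := ⟨((j : ℤ) - i) / 2, by omega⟩
    have hd : (g : ℤ) ∣ w r - w s - (H : ℤ) := by
      have : w r - w s - (H : ℤ) =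
          ((w r + (j : ℤ) * (H : ℤ)) - (w s + (i : ℤ) * (H : ℤ))) - (g : ℤ) * (c + 1) := by
        rw [hgz]
        have : (j : ℤ) = i + 2 * c + 1 := by omega
        rw [this]; ring
      rw [this]
      exact dvd_sub hw (dvd_mul_right _ _)
    obtain ⟨ha, hn⟩ := h2 r hrk s hrl hd
    obtain ⟨t, t0, t1, t2, t3⟩ := rev_class g u hu (v r) (b r) r j hjk
    obtain ⟨t', t0', t1', t2', t3'⟩ := rev_class g u hu (v s) (b s) s i hjl
    have h5 : (u : ℤ) ∣ |v r| * ((g : ℤ) * (t - t')) := by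
      have : |v r| * ((g : ℤ) * (t - t')) =
          ((v r * k + b r) - (v s * l + b s)) -
          ((v r * ((g : ℤ) * j + r) + b r) - (|v r| * g * t + nrm g (v r) (b r) r)) +
          ((v s * ((g : ℤ) * i + s) + b s) - (|v s| * g * t' + nrm g (v s) (b s) s)) := by
        rw [← ha, ← hn, ek, el]; ring
      rw [this]
      exact dvd_add (dvd_sub hF t3) t3'
    have hva : IsCoprime (u : ℤ) |v r| := by
      rcases abs_choice (v r) with h | h
      · rw [h]; exact hv r hrk
      · rw [h]; exact (hv r hrk).neg_right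
    have h6 := hgu.dvd_of_dvd_mul_left (hva.dvd_of_dvd_mul_left h5)
    obtain ⟨e, he⟩ := h6
    have he0 : e = 0 := by
      by_contra hne
      rcases lt_or_gt_of_ne hne with h | h
      · have : (u : ℤ) * e ≤ -(u : ℤ) := by nlinarith
        omega
      · have : (u : ℤ) ≤ (u : ℤ) * e := by nlinarith
        omega
    rw [he0, mul_zero] at he
    omega

/-- The lifting theorem. -/
theorem lift (g u : ℕ) (hg : g % 2 = 0) (hg6 : 6 ≤ g) (hu : u % 2 = 1)
    (hgu : Nat.Coprime g u) (w v b : ℕ → ℤ)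
    (hwg : (g : ℤ) ∣ w g - w 0 - (g / 2 : ℕ)) (hvg : v g = v 0) (hbg : b g = b 0)
    (hv : ∀ r < g, IsCoprime (u : ℤ) (v r))
    (hv2 : ∀ r < g, IsCoprime (u : ℤ) (v (r + 1) - 2))
    (hvd : ∀ r < g, IsCoprime (u : ℤ) (v (r + 1) - v r))
    (hx1 : ∀ r < g, ∀ s < g, (g : ℤ) ∣ w r - w s → r = s)
    (hx2 : ∀ r < g, ∀ s < g, (g : ℤ) ∣ w r - w s - (g / 2 : ℕ) →
      |v r| = |v s| ∧ nrm g (v r) (b r) r = nrm g (v s) (b s) s)
    (hz1 : ∀ r < g, ∀ s < g, (g : ℤ) ∣ (w (r + 1) - (r + 1)) - (w (s + 1) - (s + 1)) → r = s)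
    (hz2 : ∀ r < g, ∀ s < g,
      (g : ℤ) ∣ (w (r + 1) - (r + 1)) - (w (s + 1) - (s + 1)) - (g / 2 : ℕ) →
      |v (r + 1) - 2| = |v (s + 1) - 2| ∧
        nrm g (v (r + 1) - 2) (b (r + 1) + v (r + 1) - 2) r =
          nrm g (v (s + 1) - 2) (b (s + 1) + v (s + 1) - 2) s)
    (hE : ∀ r < g, ∀ s < g, (g : ℤ) ∣ (w (r + 1) - w r) - (w (s + 1) - w s) → r = s)
    (h01 : (g : ℤ) ∣ w 1 - w 0 - 1) (h01' : v 1 + b 1 - b 0 = 2)
    (hl : (g : ℤ) ∣ w g - w (g - 1)) (hl' : b 0 + v (g - 1) - b (g - 1) = 0) :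
    Good (g * u + 1) := by
  have hu0 : 0 < u := by omega
  have hm : 6 ≤ g * u := by nlinarith
  have hguZ : IsCoprime (u : ℤ) (g : ℤ) := by
    rw [Nat.isCoprime_iff_coprime]; exact hgu.symm
  have : NeZero g := ⟨by omega⟩
  have : NeZero u := ⟨by omega⟩
  obtain ⟨H, hH⟩ : ∃ H, g = 2 * H := ⟨g / 2, by omega⟩
  have hH2 : g / 2 = H := by omega
  have hgz : (g : ℤ) = 2 * (H : ℤ) := by rw [hH]; push_cast; ring
  set W : ℕ → ℤ := fun k => w (k % g) + (k / g : ℕ) * (g / 2 : ℕ) with hW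
  set V : ℕ → ℤ := fun k => v (k % g) * k + b (k % g) with hV
  set e := ZMod.chineseRemainder hgu with he
  set c : ZMod u := (((u + 1) / 2 : ℕ) : ZMod u) with hc
  have hc2 : (2 : ZMod u) * c = 1 := by
    have h : 2 * ((u + 1) / 2) = u + 1 := by omega
    have : ((2 * ((u + 1) / 2) : ℕ) : ZMod u) = ((u + 1 : ℕ) : ZMod u) := by rw [h]
    push_cast at this
    rw [hc]
    simpa using this
  set x : ℕ → ZMod (g * u) := fun k => e.symm ((W k : ZMod g), (V k : ZMod u) * c) with hx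
  have hex : ∀ k, e (x k) = ((W k : ZMod g), (V k : ZMod u) * c) := fun k => by
    simp only [hx, RingEquiv.apply_symm_apply]
  have hen : ∀ k : ℕ, e (k : ZMod (g * u)) = ((k : ZMod g), (k : ZMod u)) := fun k => by
    rw [map_natCast]; rfl
  -- values just after a step
  have hstep : ∀ k : ℕ, ((g : ℤ) ∣ W (k + 1) -
      (w (k % g + 1) + (k / g : ℕ) * (g / 2 : ℕ))) ∧
      V (k + 1) = v (k % g + 1) * (k + 1 : ℕ) + b (k % g + 1) := by
    intro k
    have hr := Nat.mod_lt k (show 0 < g by omega)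
    by_cases hlast : k % g + 1 < g
    · have e1 : (k + 1) % g = k % g + 1 := by
        rw [Nat.add_mod, Nat.mod_eq_of_lt (show 1 < g by omega), Nat.mod_eq_of_lt hlast]
      have e2 : (k + 1) / g = k / g := by
        rw [Nat.succ_div_of_not_dvd]
        intro h
        have := Nat.mod_eq_zero_of_dvd h
        omega
      constructor
      · simp only [hW, e1, e2, sub_self, dvd_zero]
      · simp only [hV, e1]
    · have e0 : k % g + 1 = g := by omega
      have hdv : g ∣ k + 1 := by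
        have := Nat.div_add_mod k g
        refine ⟨k / g + 1, ?_⟩
        rw [mul_add, mul_one]
        omega
      have e1 : (k + 1) % g = 0 := Nat.mod_eq_zero_of_dvd hdv
      have e2 : (k + 1) / g = k / g + 1 := Nat.succ_div_of_dvd hdv
      constructor
      · simp only [hW, e1, e2, e0]
        have : w 0 + ((k / g + 1 : ℕ) : ℤ) * ((g / 2 : ℕ) : ℤ) -
            (w g + ((k / g : ℕ) : ℤ) * ((g / 2 : ℕ) : ℤ)) = -(w g - w 0 - ((g / 2 : ℕ) : ℤ)) := by
          push_cast; ring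
        rw [this]
        exact (dvd_neg).2 hwg
      · simp only [hV, e1, e0, hvg, hbg]
  have hcancel : ∀ a a' : ZMod u, a * c = a' * c → a = a' := by
    intro a a' h
    have : 2 * (a * c) = 2 * (a' * c) := by rw [h]
    rw [mul_left_comm, mul_left_comm (2 : ZMod u), hc2, mul_one, mul_one] at this
    exact this
  -- differences
  have hdiff : ∀ k : ℕ, ((g : ℤ) ∣ (W (k + 1) - W k) - (w (k % g + 1) - w (k % g))) ∧
      V (k + 1) - V k = (v (k % g + 1) - v (k % g)) * k +
        (v (k % g + 1) + b (k % g + 1) - b (k % g)) := by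
    intro k
    obtain ⟨s1, s2⟩ := hstep k
    constructor
    · have : (W (k + 1) - W k) - (w (k % g + 1) - w (k % g)) =
          W (k + 1) - (w (k % g + 1) + (k / g : ℕ) * (g / 2 : ℕ)) := by
        simp only [hW]; ring
      rw [this]; exact s1
    · rw [s2]; simp only [hV]; push_cast; ring
  have hDinj : ∀ k l : ℕ, k < g * u → l < g * u → x (k + 1) - x k = x (l + 1) - x l → k = l := by
    intro k l hk hlu h
    have h' := congrArg e h
    rw [map_sub, map_sub, hex, hex, hex, hex] at h'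
    simp only [Prod.mk_sub_mk, Prod.mk.injEq] at h'
    obtain ⟨hA, hB⟩ := h'
    obtain ⟨k1, k2⟩ := hdiff k
    obtain ⟨l1, l2⟩ := hdiff l
    have hA' : (g : ℤ) ∣ (W (k + 1) - W k) - (W (l + 1) - W l) := by
      have : (((W (k + 1) - W k : ℤ)) : ZMod g) = ((W (l + 1) - W l : ℤ) : ZMod g) := by
        push_cast; exact hA
      have := (ZMod.intCast_eq_intCast_iff_dvd_sub _ _ _).1 this.symm
      exact this
    have hr : k % g = l % g := by
      apply hE _ (Nat.mod_lt _ (by omega)) _ (Nat.mod_lt _ (by omega))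
      have : (w (k % g + 1) - w (k % g)) - (w (l % g + 1) - w (l % g)) =
          ((W (k + 1) - W k) - (W (l + 1) - W l)) -
          ((W (k + 1) - W k) - (w (k % g + 1) - w (k % g))) +
          ((W (l + 1) - W l) - (w (l % g + 1) - w (l % g))) := by ring
      rw [this]
      exact dvd_add (dvd_sub hA' k1) l1
    have hB' : ((V (k + 1) - V k : ℤ) : ZMod u) = ((V (l + 1) - V l : ℤ) : ZMod u) := by
      apply hcancel
      push_cast
      rw [sub_mul, sub_mul]; exact hB
    rw [k2, l2, ← hr] at hB'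
    have hB2 := (ZMod.intCast_eq_intCast_iff_dvd_sub _ _ _).1 hB'.symm
    have hB3 : (u : ℤ) ∣ (v (k % g + 1) - v (k % g)) * ((k : ℤ) - l) := by
      convert hB2 using 1
      ring
    have hB4 := (hvd _ (Nat.mod_lt _ (by omega))).dvd_of_dvd_mul_left hB3
    have hG : (g : ℤ) ∣ (k : ℤ) - l := by
      have := (Nat.modEq_iff_dvd (n := g) (a := l) (b := k)).1 hr.symm
      exact this
    have hGU : ((g * u : ℕ) : ℤ) ∣ (k : ℤ) - l := by
      push_cast
      exact IsCoprime.mul_dvd hguZ.symm hG hB4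
    obtain ⟨q, hq⟩ := hGU
    have hq0 : q = 0 := by
      by_contra hne
      rcases lt_or_gt_of_ne hne with h | h
      · have : ((g * u : ℕ) : ℤ) * q ≤ -((g * u : ℕ) : ℤ) := by nlinarith
        omega
      · have : ((g * u : ℕ) : ℤ) ≤ ((g * u : ℕ) : ℤ) * q := by nlinarith
        omega
    rw [hq0, mul_zero] at hq
    omega
  have hD0 : x 1 - x 0 = 1 := by
    apply e.injective
    rw [map_sub, hex, hex, map_one]
    obtain ⟨k1, k2⟩ := hdiff 0
    simp only [Nat.zero_mod, zero_add] at k1 k2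
    have a1 : ((W 1 : ℤ) : ZMod g) - ((W 0 : ℤ) : ZMod g) = 1 := by
      have : ((W 1 - W 0 : ℤ) : ZMod g) = ((1 : ℤ) : ZMod g) := by
        apply (ZMod.intCast_eq_intCast_iff_dvd_sub _ _ _).2
        have e3 : (1 : ℤ) - (W 1 - W 0) = -((W 1 - W 0 - (w 1 - w 0)) + (w 1 - w 0 - 1)) := by ring
        rw [e3]
        exact (dvd_neg).2 (dvd_add k1 h01)
      push_cast at this
      exact this
    have a2 : ((V 1 : ℤ) : ZMod u) * c - ((V 0 : ℤ) : ZMod u) * c = 1 := by
      rw [← sub_mul]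
      have : ((V 1 : ℤ) : ZMod u) - ((V 0 : ℤ) : ZMod u) = 2 := by
        have h : V 1 - V 0 = 2 := by rw [k2, h01']; simp
        have := congrArg (fun t : ℤ => (t : ZMod u)) h
        push_cast at this
        exact this
      rw [this, hc2]
    simp only [Prod.mk_sub_mk, a1, a2]
    rfl
  have hDl : x (g * u - 1 + 1) - x (g * u - 1) = 0 := by
    have hmod : (g * u - 1) % g = g - 1 := by
      obtain ⟨u', rfl⟩ : ∃ u', u = u' + 1 := ⟨u - 1, by omega⟩
      have : g * (u' + 1) - 1 = (g - 1) + g * u' := by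
        rw [mul_add, mul_one]; omega
      rw [this, Nat.add_mul_mod_self_left, Nat.mod_eq_of_lt (by omega)]
    apply e.injective
    rw [map_sub, hex, hex, map_zero]
    obtain ⟨k1, k2⟩ := hdiff (g * u - 1)
    rw [hmod, show g - 1 + 1 = g by omega] at k1 k2
    have a1 : ((W (g * u - 1 + 1) : ℤ) : ZMod g) - ((W (g * u - 1) : ℤ) : ZMod g) = 0 := by
      have : ((W (g * u - 1 + 1) - W (g * u - 1) : ℤ) : ZMod g) = 0 := by
        rw [ZMod.intCast_zmod_eq_zero_iff_dvd]
        have e3 : W (g * u - 1 + 1) - W (g * u - 1) =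
          (W (g * u - 1 + 1) - W (g * u - 1) - (w g - w (g - 1))) + (w g - w (g - 1)) := by ring
        rw [e3]
        exact dvd_add k1 hl
      push_cast at this
      exact this
    have a2 : ((V (g * u - 1 + 1) : ℤ) : ZMod u) * c - ((V (g * u - 1) : ℤ) : ZMod u) * c = 0 := by
      rw [← sub_mul]
      have : ((V (g * u - 1 + 1) : ℤ) : ZMod u) - ((V (g * u - 1) : ℤ) : ZMod u) = 0 := by
        have h : V (g * u - 1 + 1) - V (g * u - 1) = (v g - v (g - 1)) * (g * u) := by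
          rw [k2, hbg]
          have e4 : ((g * u - 1 : ℕ) : ℤ) = (g : ℤ) * u - 1 := by
            rw [Nat.cast_sub (by omega)]; push_cast; ring
          rw [e4]
          have e5 : b 0 = b (g - 1) - v (g - 1) := by linarith
          rw [e5]; ring
        have h7 := congrArg (fun t : ℤ => (t : ZMod u)) h
        push_cast at h7
        rw [h7]; simp
      rw [this, zero_mul]
    simp only [Prod.mk_sub_mk, a1, a2]
    rfl
  apply good_of_seq (g * u) hm x
  · intro i j hi1 hi2 hj1 hj2 h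
    have h' := congrArg e h
    rw [hex, hex] at h'
    simp only [Prod.mk.injEq] at h'
    obtain ⟨hA, hB⟩ := h'
    apply inj_core g u hg (by omega) hu hguZ w v b hv hx1 hx2 i j hi2 hj2
    · exact (ZMod.intCast_eq_intCast_iff_dvd_sub _ _ _).1 hA.symm
    · exact (ZMod.intCast_eq_intCast_iff_dvd_sub _ _ _).1 (hcancel _ _ hB).symm
  · intro i j hi1 hi2 hj1 hj2 h
    have h' := congrArg e h
    rw [map_sub, map_sub, hex, hex, hen, hen] at h'
    simp only [Prod.mk_sub_mk, Prod.mk.injEq] at h'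
    obtain ⟨hA, hB⟩ := h'
    obtain ⟨i', rfl⟩ : ∃ i', i = i' + 1 := ⟨i - 1, by omega⟩
    obtain ⟨j', rfl⟩ : ∃ j', j = j' + 1 := ⟨j - 1, by omega⟩
    obtain ⟨i1, i2⟩ := hstep i'
    obtain ⟨j1, j2⟩ := hstep j'
    have hB1 : ((V (i' + 1) - 2 * (i' + 1 : ℕ) : ℤ) : ZMod u) =
        ((V (j' + 1) - 2 * (j' + 1 : ℕ) : ℤ) : ZMod u) := by
      apply hcancel
      push_cast
      push_cast at hB
      have t : ∀ a b : ZMod u, (a - 2 * b) * c = a * c - b := by
        intro a b
        rw [sub_mul, mul_comm 2 b, mul_assoc, hc2, mul_one]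
      rw [t, t]
      exact hB
    have hA1 : ((W (i' + 1) - (i' + 1 : ℕ) : ℤ) : ZMod g) =
        ((W (j' + 1) - (j' + 1 : ℕ) : ℤ) : ZMod g) := by
      push_cast
      push_cast at hA
      exact hA
    have hA2 := (ZMod.intCast_eq_intCast_iff_dvd_sub _ _ _).1 hA1.symm
    have hB2 := (ZMod.intCast_eq_intCast_iff_dvd_sub _ _ _).1 hB1.symm
    have := inj_core g u hg (by omega) hu hguZ (fun r => w (r + 1) - (r + 1))
      (fun r => v (r + 1) - 2) (fun r => b (r + 1) + v (r + 1) - 2) hv2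
      (fun r hr s hs h => hz1 r hr s hs h) (fun r hr s hs h => hz2 r hr s hs h) i' j'
      (by omega) (by omega) ?_ ?_
    · omega
    · have ei : ((i' : ℕ) : ℤ) = (g : ℤ) * (i' / g : ℕ) + (i' % g : ℕ) := by
        exact_mod_cast (Nat.div_add_mod i' g).symm
      have ej : ((j' : ℕ) : ℤ) = (g : ℤ) * (j' / g : ℕ) + (j' % g : ℕ) := by
        exact_mod_cast (Nat.div_add_mod j' g).symm
      have : (w (i' % g + 1) - (((i' % g : ℕ) : ℤ) + 1) + ((i' / g : ℕ) : ℤ) * ((g / 2 : ℕ) : ℤ)) -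
          (w (j' % g + 1) - (((j' % g : ℕ) : ℤ) + 1) + ((j' / g : ℕ) : ℤ) * ((g / 2 : ℕ) : ℤ)) =
          ((W (i' + 1) - ((i' + 1 : ℕ) : ℤ)) - (W (j' + 1) - ((j' + 1 : ℕ) : ℤ))) -
          (W (i' + 1) - (w (i' % g + 1) + (i' / g : ℕ) * (g / 2 : ℕ))) +
          (W (j' + 1) - (w (j' % g + 1) + (j' / g : ℕ) * (g / 2 : ℕ))) +
          (g : ℤ) * (((i' / g : ℕ) : ℤ) - ((j' / g : ℕ) : ℤ)) := by
        push_cast at ei ej ⊢
        linear_combination ei - ej
      rw [this]
      exact dvd_add (dvd_add (dvd_sub hA2 i1) j1) (dvd_mul_right _ _)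
    · have : ((v (i' % g + 1) - 2) * (i' : ℤ) + (b (i' % g + 1) + v (i' % g + 1) - 2)) -
          ((v (j' % g + 1) - 2) * (j' : ℤ) + (b (j' % g + 1) + v (j' % g + 1) - 2)) =
          ((V (i' + 1) - 2 * ((i' + 1 : ℕ) : ℤ)) - (V (j' + 1) - 2 * ((j' + 1 : ℕ) : ℤ))) := by
        rw [i2, j2]; push_cast; ring
      rw [this]
      exact hB2
  · intro i j hi1 hi2 hj1 hj2 h
    exact hDinj i j (by omega) (by omega) h
  · intro i hi1 hi2
    constructor
    · intro h0
      have := hDinj i (g * u - 1) (by omega) (by omega) (by rw [h0, hDl])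
      omega
    · intro h1
      have := hDinj i 0 (by omega) (by omega) (by rw [h1, ← hD0])
      omega

end DNeo
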