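import Mathlib
import Pool.Agent.Lib.MP_162c7e_co.Lift

/-!
Lifting without coprimality: finite data modulo an even number `g = e h` (with `e` prime to `h u`,
`h u` odd) give, for every `u` prime to the slopes used, a sequence modulo `g * u` with all the
properties asked by the ordering criterion. Here `u` need not be prime to `h`.
-/

set_option autoImplicit false

namespace DNeo

theorem zero_of_dvd_small (u : ℕ) (a : ℤ) (h : (u : ℤ) ∣ a) (h1 : -(u : ℤ) < a) (h2 : a < u) :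
    a = 0 := by
  obtain ⟨e, he⟩ := h
  have he0 : e = 0 := by
    by_contra hne
    have hu : (0 : ℤ) ≤ u := Int.natCast_nonneg u
    rcases lt_or_gt_of_ne hne with h | h
    · have : (u : ℤ) * e ≤ -(u : ℤ) := by nlinarith
      omega
    · have : (u : ℤ) ≤ (u : ℤ) * e := by nlinarith
      omega
  rw [he0, mul_zero] at he
  exact he

theorem inj_core2 (e h g u : ℕ) (hgdef : g = e * h) (hg : g % 2 = 0) (hg0 : 0 < g) (hu : u % 2 = 1)
    (heu : IsCoprime (u : ℤ) (e : ℤ)) (w v b : ℕ → ℤ)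
    (hv : ∀ r < g, IsCoprime (u : ℤ) (v r))
    (h1 : ∀ r < g, ∀ s < g, (g : ℤ) ∣ w r - w s → r = s)
    (h2 : ∀ r < g, ∀ s < g, (g : ℤ) ∣ w r - w s - (g / 2 : ℕ) →
      |v r| = |v s| ∧ nrm g (v r) (b r) r = nrm g (v s) (b s) s)
    (k l : ℕ) (hk : k < g * u) (hl : l < g * u)
    (hw : (g : ℤ) ∣ (w (k % g) + (k / g : ℕ) * (g / 2 : ℕ)) -
      (w (l % g) + (l / g : ℕ) * (g / 2 : ℕ)))
    (hF : ((h * u : ℕ) : ℤ) ∣ (v (k % g) * k + b (k % g)) -
      (v (l % g) * l + b (l % g))) : k = l := by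
  have hh0 : 0 < h := by
    rcases Nat.eq_zero_or_pos h with h' | h'
    · rw [h', mul_zero] at hgdef; omega
    · exact h'
  obtain ⟨H, hH⟩ : ∃ H, g = 2 * H := ⟨g / 2, by omega⟩
  have hH2 : g / 2 = H := by omega
  rw [hH2] at hw h2
  have hrk : k % g < g := Nat.mod_lt _ hg0
  have hrl : l % g < g := Nat.mod_lt _ hg0
  have hjk : k / g < u := Nat.div_lt_of_lt_mul hk
  have hjl : l / g < u := Nat.div_lt_of_lt_mul hl
  have ek : (k : ℤ) = (g : ℤ) * (k / g : ℕ) + (k % g : ℕ) := by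
    exact_mod_cast (Nat.div_add_mod k g).symm
  have el : (l : ℤ) = (g : ℤ) * (l / g : ℕ) + (l % g : ℕ) := by
    exact_mod_cast (Nat.div_add_mod l g).symm
  have hgz : (g : ℤ) = 2 * (H : ℤ) := by rw [hH]; push_cast; ring
  have hgeh : (g : ℤ) = (h : ℤ) * (e : ℤ) := by rw [hgdef]; push_cast; ring
  have hhz : (h : ℤ) ≠ 0 := by exact_mod_cast hh0.ne'
  -- cancelling `h e`
  have cancel : ∀ c t : ℤ, IsCoprime (u : ℤ) c → ((h * u : ℕ) : ℤ) ∣ c * ((g : ℤ) * t) →
      (u : ℤ) ∣ t := by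
    intro c t hc hd
    have : c * ((g : ℤ) * t) = (h : ℤ) * (c * ((e : ℤ) * t)) := by rw [hgeh]; ring
    rw [this] at hd
    push_cast at hd
    have h3 := (mul_dvd_mul_iff_left hhz).1 hd
    exact heu.dvd_of_dvd_mul_left (hc.dvd_of_dvd_mul_left h3)
  generalize hr : k % g = r at *
  generalize hj : k / g = j at *
  generalize hs : l % g = s at *
  generalize hi : l / g = i at *
  rcases Int.emod_two_eq_zero_or_one ((j : ℤ) - i) with hpar | hpar
  · obtain ⟨c, hc⟩ := Int.dvd_of_emod_eq_zero hpar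
    have hd : (g : ℤ) ∣ w r - w s := by
      have : w r - w s = ((w r + (j : ℤ) * (H : ℤ)) - (w s + (i : ℤ) * (H : ℤ))) - (g : ℤ) * c := by
        rw [hgz]
        have : (j : ℤ) = i + 2 * c := by omega
        rw [this]; ring
      rw [this]
      exact dvd_sub hw (dvd_mul_right _ _)
    have hrs := h1 r hrk s hrl hd
    subst hrs
    have hF' : ((h * u : ℕ) : ℤ) ∣ v r * ((g : ℤ) * ((j : ℤ) - i)) := by
      have : v r * ((g : ℤ) * ((j : ℤ) - i)) = (v r * k + b r) - (v r * l + b r) := by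
        rw [ek, el]; ring
      rw [this]; exact hF
    have h4 := cancel _ _ (hv r hrk) hF'
    have h5 := zero_of_dvd_small u _ h4 (by omega) (by omega)
    have : (k : ℤ) = l := by
      rw [ek, el]
      have : (j : ℤ) = i := by omega
      rw [this]
    exact_mod_cast this
  · exfalso
    obtain ⟨c, hc⟩ : ∃ c, (j : ℤ) - i = 2 * c + 1 := ⟨((j : ℤ) - i) / 2, by omega⟩
    have hd : (g : ℤ) ∣ w r - w s - (H : ℤ) := by
      have : w r - w s - (H : ℤ) =
          ((w r + (j : ℤ) * (H : ℤ)) - (w s + (i : ℤ) * (H : ℤ))) - (g : ℤ) * (c + 1) := by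
        rw [hgz]
        have : (j : ℤ) = i + 2 * c + 1 := by omega
        rw [this]; ring
      rw [this]
      exact dvd_sub hw (dvd_mul_right _ _)
    obtain ⟨ha, hn⟩ := h2 r hrk s hrl hd
    -- reversing a class, modulo `h u`
    have rev : ∀ (v b : ℤ) (r j : ℕ), j < u → ∃ t : ℤ, 0 ≤ t ∧ t < u ∧ (2 : ℤ) ∣ t - j ∧
        ((h * u : ℕ) : ℤ) ∣ (v * ((g : ℤ) * j + r) + b) - (|v| * g * t + nrm g v b r) := by
      intro v b r j hj
      by_cases hv : v < 0
      · refine ⟨(u : ℤ) - 1 - j, by omega, by omega, by omega, ?_⟩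
        refine ⟨v * e, ?_⟩
        rw [nrm, if_pos hv, abs_of_neg hv]
        push_cast
        linear_combination (v * u) * hgeh
      · refine ⟨j, by omega, by omega, by simp, ?_⟩
        refine ⟨0, ?_⟩
        rw [nrm, if_neg hv, abs_of_nonneg (not_lt.1 hv)]
        ring
    obtain ⟨t, t0, t1, t2, t3⟩ := rev (v r) (b r) r j hjk
    obtain ⟨t', t0', t1', t2', t3'⟩ := rev (v s) (b s) s i hjl
    have h5 : ((h * u : ℕ) : ℤ) ∣ |v r| * ((g : ℤ) * (t - t')) := by
      have : |v r| * ((g : ℤ) * (t - t')) =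
          ((v r * k + b r) - (v s * l + b s)) -
          ((v r * ((g : ℤ) * j + r) + b r) - (|v r| * g * t + nrm g (v r) (b r) r)) +
          ((v s * ((g : ℤ) * i + s) + b s) - (|v s| * g * t' + nrm g (v s) (b s) s)) := by
        rw [← ha, ← hn, ek, el]; ring
      rw [this]
      exact dvd_add (dvd_sub hF t3) t3'
    have hva : IsCoprime (u : ℤ) |v r| := by
      rcases abs_choice (v r) with h | h
      · rw [h]; exact hv r hrk
      · rw [h]; exact (hv r hrk).neg_right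
    have h6 := cancel _ _ hva h5
    have h7 := zero_of_dvd_small u _ h6 (by omega) (by omega)
    omega

/-- The lifting theorem; `u` need not be prime to `h`. -/
theorem lift2 (e h g u : ℕ) (hgdef : g = e * h) (hg : g % 2 = 0) (hg6 : 6 ≤ g) (hhu : (h * u) % 2 = 1)
    (heu : IsCoprime (u : ℤ) (e : ℤ)) (heh : IsCoprime (h : ℤ) (e : ℤ)) (w v b : ℕ → ℤ)
    (hc : ∀ r < g, (h : ℤ) ∣ v r * r + b r - 2 * w r)
    (hvo : ∀ r < g, (2 : ℤ) ∣ v r - 1)
    (hwg : (g : ℤ) ∣ w g - w 0 - (g / 2 : ℕ))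
    (hvg : v g = v 0) (hbg : b g = b 0)
    (hv : ∀ r < g, IsCoprime (u : ℤ) (v r))
    (hv2 : ∀ r < g, IsCoprime (u : ℤ) (v (r + 1) - 2))
    (hvd : ∀ r < g, IsCoprime (u : ℤ) (v (r + 1) - v r))
    (hx1 : ∀ r < g, ∀ s < g, (g : ℤ) ∣ w r - w s → r = s)
    (hx2 : ∀ r < g, ∀ s < g, (g : ℤ) ∣ w r - w s - (g / 2 : ℕ) →
      |v r| = |v s| ∧ nrm g (v r) (b r) r = nrm g (v s) (b s) s)
    (hz1 : ∀ r < g, ∀ s < g,
      (g : ℤ) ∣ (w (r + 1) - (r + 1)) - (w (s + 1) - (s + 1)) → r = s)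
    (hz2 : ∀ r < g, ∀ s < g,
      (g : ℤ) ∣ (w (r + 1) - (r + 1)) - (w (s + 1) - (s + 1)) - (g / 2 : ℕ) →
      |v (r + 1) - 2| = |v (s + 1) - 2| ∧
        nrm g (v (r + 1) - 2) (b (r + 1) + v (r + 1) - 2) r =
          nrm g (v (s + 1) - 2) (b (s + 1) + v (s + 1) - 2) s)
    (hE : ∀ r < g, ∀ s < g,
      (g : ℤ) ∣ (w (r + 1) - w r) - (w (s + 1) - w s) → r = s)
    (h01 : (g : ℤ) ∣ w 1 - w 0 - 1) (h01' : v 1 + b 1 - b 0 = 2)
    (hl : (g : ℤ) ∣ w g - w (g - 1))
    (hl' : b 0 + v (g - 1) - b (g - 1) = 0) :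
    Good (g * u + 1) := by
  have hu : u % 2 = 1 := by
    rcases Nat.mod_two_eq_zero_or_one u with h' | h'
    · rw [Nat.mul_mod, h', mul_zero, Nat.zero_mod] at hhu; omega
    · exact h'
  have hh : h % 2 = 1 := by
    rcases Nat.mod_two_eq_zero_or_one h with h' | h'
    · rw [Nat.mul_mod, h', zero_mul, Nat.zero_mod] at hhu; omega
    · exact h'
  have hu0 : 0 < u := by omega
  have hh0 : 0 < h := by omega
  have core1 := inj_core2 e h g u hgdef hg (by omega) hu heu w v b hv hx1 hx2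
  have core2 := inj_core2 e h g u hgdef hg (by omega) hu heu (fun r => w (r + 1) - (r + 1))
      (fun r => v (r + 1) - 2) (fun r => b (r + 1) + v (r + 1) - 2) hv2
      (fun r hr s hs h => hz1 r hr s hs h) (fun r hr s hs h => hz2 r hr s hs h)
  have hm : 6 ≤ g * u := by nlinarith
  obtain ⟨H, hH⟩ : ∃ H, g = 2 * H := ⟨g / 2, by omega⟩
  have hH2 : g / 2 = H := by omega
  have hgz : (g : ℤ) = 2 * (H : ℤ) := by rw [hH]; push_cast; ring
  have hgeh : (g : ℤ) = (h : ℤ) * (e : ℤ) := by rw [hgdef]; push_cast; ring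
  have hhz : (h : ℤ) ≠ 0 := by exact_mod_cast hh0.ne'
  have hu2 : IsCoprime (u : ℤ) 2 := by
    obtain ⟨k, hk⟩ : ∃ k, (u : ℤ) = 2 * k + 1 := ⟨(u : ℤ) / 2, by omega⟩
    exact ⟨1, -k, by rw [hk]; ring⟩
  have hhu2 : IsCoprime ((h * u : ℕ) : ℤ) 2 := by
    obtain ⟨k, hk⟩ : ∃ k, ((h * u : ℕ) : ℤ) = 2 * k + 1 := ⟨((h * u : ℕ) : ℤ) / 2, by omega⟩
    exact ⟨1, -k, by rw [hk]; ring⟩
  -- the offsets in units of `g`
  have hP : ∀ r : ℕ, ∃ P : ℤ, r < g →
      ((h * u : ℕ) : ℤ) ∣ 2 * ((g : ℤ) * P) - (v r * r + b r - 2 * w r) := by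
    intro r
    by_cases hrg : r < g
    swap
    · exact ⟨0, fun h => absurd h hrg⟩
    obtain ⟨q, hq⟩ := hc r hrg
    have hcop : IsCoprime (u : ℤ) (2 * (e : ℤ)) := hu2.mul_right heu
    obtain ⟨x, y, hxy⟩ := hcop
    refine ⟨y * q, fun _ => ?_⟩
    refine ⟨-x * q, ?_⟩
    rw [hq, hgeh]
    push_cast
    linear_combination (h : ℤ) * q * hxy
  choose P hPd using hP
  set X : ℕ → ℤ := fun k => w (k % g) + (H : ℤ) * (v (k % g) * (k / g : ℕ)) + (g : ℤ) * P (k % g)
    with hX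
  set W : ℕ → ℤ := fun k => w (k % g) + (k / g : ℕ) * (g / 2 : ℕ) with hW
  set V : ℕ → ℤ := fun k => v (k % g) * k + b (k % g) with hV
  have hXW : ∀ k, (g : ℤ) ∣ X k - W k := by
    intro k
    obtain ⟨c, hc⟩ := hvo (k % g) (Nat.mod_lt _ (by omega))
    refine ⟨(k / g : ℕ) * c + P (k % g), ?_⟩
    simp only [hX, hW, hH2]
    have : v (k % g) = 2 * c + 1 := by linarith
    rw [this, hgz]; ring
  have hXV : ∀ k, ((h * u : ℕ) : ℤ) ∣ 2 * X k - V k := by
    intro k
    have ek : (k : ℤ) = (g : ℤ) * (k / g : ℕ) + (k % g : ℕ) := by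
      exact_mod_cast (Nat.div_add_mod k g).symm
    have e1 : 2 * X k - V k = 2 * ((g : ℤ) * P (k % g)) -
        (v (k % g) * (k % g : ℕ) + b (k % g) - 2 * w (k % g)) := by
      simp only [hX, hV]
      rw [hgz] at ek ⊢
      linear_combination (-(v (k % g))) * ek
    rw [e1]
    exact hPd _ (Nat.mod_lt _ (by omega))
  set x : ℕ → ZMod (g * u) := fun k => (X k : ZMod (g * u)) with hx
  have hgmul : ((g * u : ℕ) : ℤ) = (e : ℤ) * ((h * u : ℕ) : ℤ) := by
    rw [hgdef]; push_cast; ring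
  -- from an equality modulo `g u` to the two moduli
  have toW : ∀ a : ℤ, ((a : ℤ) : ZMod (g * u)) = 0 → (g : ℤ) ∣ a ∧ ((h * u : ℕ) : ℤ) ∣ 2 * a := by
    intro a ha
    rw [ZMod.intCast_zmod_eq_zero_iff_dvd] at ha
    constructor
    · refine dvd_trans ?_ ha
      push_cast
      exact dvd_mul_right _ _
    · refine dvd_trans ?_ (dvd_mul_of_dvd_right ha 2)
      rw [hgmul]
      exact dvd_mul_left _ _
  have ofW : ∀ a : ℤ, (g : ℤ) ∣ a → ((h * u : ℕ) : ℤ) ∣ 2 * a →
      ((a : ℤ) : ZMod (g * u)) = 0 := by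
    intro a h1 h2
    rw [ZMod.intCast_zmod_eq_zero_iff_dvd, hgmul]
    have h3 : ((h * u : ℕ) : ℤ) ∣ a := hhu2.dvd_of_dvd_mul_left h2
    have h4 : (e : ℤ) ∣ a := dvd_trans (by rw [hgeh]; exact dvd_mul_left _ _) h1
    have h5 : IsCoprime (e : ℤ) ((h * u : ℕ) : ℤ) := by
      push_cast
      exact IsCoprime.mul_right heh.symm heu.symm
    exact h5.mul_dvd h4 h3
  -- values just after a step
  have hstep : ∀ k : ℕ, ((g : ℤ) ∣ W (k + 1) -
      (w (k % g + 1) + (k / g : ℕ) * (g / 2 : ℕ))) ∧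
      V (k + 1) = v (k % g + 1) * (k + 1 : ℕ) + b (k % g + 1) := by
    intro k
    have hr := Nat.mod_lt k (show 0 < g by omega)
    by_cases hlast : k % g + 1 < g
    · have e1 : (k + 1) % g = k % g + 1 := by
        rw [Nat.add_mod, Nat.mod_eq_of_lt (show 1 < g by omega), Nat.mod_eq_of_lt hlast]
      have e2 : (k + 1) / g = k / g := by
        rw [Nat.succ_div_of_not_dvd]
        intro h
        have := Nat.mod_eq_zero_of_dvd h
        omega
      constructor
      · simp only [hW, e1, e2, sub_self, dvd_zero]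
      · simp only [hV, e1]
    · have e0 : k % g + 1 = g := by omega
      have hdv : g ∣ k + 1 := by
        have := Nat.div_add_mod k g
        refine ⟨k / g + 1, ?_⟩
        rw [mul_add, mul_one]
        omega
      have e1 : (k + 1) % g = 0 := Nat.mod_eq_zero_of_dvd hdv
      have e2 : (k + 1) / g = k / g + 1 := Nat.succ_div_of_dvd hdv
      constructor
      · simp only [hW, e1, e2, e0]
        have : w 0 + ((k / g + 1 : ℕ) : ℤ) * ((g / 2 : ℕ) : ℤ) -
            (w g + ((k / g : ℕ) : ℤ) * ((g / 2 : ℕ) : ℤ)) = -(w g - w 0 - ((g / 2 : ℕ) : ℤ)) := by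
          push_cast; ring
        rw [this]
        exact (dvd_neg).2 hwg
      · simp only [hV, e1, e0, hvg, hbg]
  -- differences
  have hdiff : ∀ k : ℕ, ((g : ℤ) ∣ (W (k + 1) - W k) - (w (k % g + 1) - w (k % g))) ∧
      V (k + 1) - V k = (v (k % g + 1) - v (k % g)) * k +
        (v (k % g + 1) + b (k % g + 1) - b (k % g)) := by
    intro k
    obtain ⟨s1, s2⟩ := hstep k
    constructor
    · have : (W (k + 1) - W k) - (w (k % g + 1) - w (k % g)) =
          W (k + 1) - (w (k % g + 1) + (k / g : ℕ) * (g / 2 : ℕ)) := by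
        simp only [hW]; ring
      rw [this]; exact s1
    · rw [s2]; simp only [hV]; push_cast; ring
  have hDinj : ∀ k l : ℕ, k < g * u → l < g * u → x (k + 1) - x k = x (l + 1) - x l → k = l := by
    intro k l hk hlu heq
    have h0 : (((X (k + 1) - X k) - (X (l + 1) - X l) : ℤ) : ZMod (g * u)) = 0 := by
      push_cast
      exact sub_eq_zero.2 heq
    obtain ⟨hA, hB⟩ := toW _ h0
    obtain ⟨k1, k2⟩ := hdiff k
    obtain ⟨l1, l2⟩ := hdiff l
    have hr : k % g = l % g := by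
      apply hE _ (Nat.mod_lt _ (by omega)) _ (Nat.mod_lt _ (by omega))
      have : (w (k % g + 1) - w (k % g)) - (w (l % g + 1) - w (l % g)) =
          ((X (k + 1) - X k) - (X (l + 1) - X l)) - (X (k + 1) - W (k + 1)) + (X k - W k) +
          (X (l + 1) - W (l + 1)) - (X l - W l) -
          ((W (k + 1) - W k) - (w (k % g + 1) - w (k % g))) +
          ((W (l + 1) - W l) - (w (l % g + 1) - w (l % g))) := by ring
      rw [this]
      exact dvd_add (dvd_sub (dvd_sub (dvd_add (dvd_add (dvd_sub hA (hXW _)) (hXW _)) (hXW _))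
        (hXW _)) k1) l1
    have hB2 : ((h * u : ℕ) : ℤ) ∣ (V (k + 1) - V k) - (V (l + 1) - V l) := by
      have : (V (k + 1) - V k) - (V (l + 1) - V l) =
          2 * ((X (k + 1) - X k) - (X (l + 1) - X l)) - (2 * X (k + 1) - V (k + 1)) +
          (2 * X k - V k) + (2 * X (l + 1) - V (l + 1)) - (2 * X l - V l) := by ring
      rw [this]
      exact dvd_sub (dvd_add (dvd_add (dvd_sub hB (hXV _)) (hXV _)) (hXV _)) (hXV _)
    rw [k2, l2, ← hr] at hB2
    have ek : (k : ℤ) = (g : ℤ) * (k / g : ℕ) + (k % g : ℕ) := by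
      exact_mod_cast (Nat.div_add_mod k g).symm
    have el : (l : ℤ) = (g : ℤ) * (l / g : ℕ) + (l % g : ℕ) := by
      exact_mod_cast (Nat.div_add_mod l g).symm
    rw [← hr] at el
    have hB3 : ((h * u : ℕ) : ℤ) ∣
        (v (k % g + 1) - v (k % g)) * ((g : ℤ) * (((k / g : ℕ) : ℤ) - ((l / g : ℕ) : ℤ))) := by
      have : (v (k % g + 1) - v (k % g)) * ((g : ℤ) * (((k / g : ℕ) : ℤ) - ((l / g : ℕ) : ℤ))) =
          (v (k % g + 1) - v (k % g)) * k + (v (k % g + 1) + b (k % g + 1) - b (k % g)) -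
          ((v (k % g + 1) - v (k % g)) * l + (v (k % g + 1) + b (k % g + 1) - b (k % g))) := by
        linear_combination (-(v (k % g + 1) - v (k % g))) * ek +
          (v (k % g + 1) - v (k % g)) * el
      rw [this]; exact hB2
    have hB4 : (u : ℤ) ∣ ((k / g : ℕ) : ℤ) - ((l / g : ℕ) : ℤ) := by
      have e5 : (v (k % g + 1) - v (k % g)) * ((g : ℤ) * (((k / g : ℕ) : ℤ) - ((l / g : ℕ) : ℤ))) =
        (h : ℤ) * ((v (k % g + 1) - v (k % g)) *
          ((e : ℤ) * (((k / g : ℕ) : ℤ) - ((l / g : ℕ) : ℤ)))) := by rw [hgeh]; ring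
      rw [e5] at hB3
      push_cast at hB3
      have h3 := (mul_dvd_mul_iff_left hhz).1 hB3
      have h8 := heu.dvd_of_dvd_mul_left ((hvd _ (Nat.mod_lt _ (by omega))).dvd_of_dvd_mul_left h3)
      push_cast
      exact h8
    have hjk : k / g < u := Nat.div_lt_of_lt_mul hk
    have hjl : l / g < u := Nat.div_lt_of_lt_mul hlu
    have a1 : (0 : ℤ) ≤ ((k / g : ℕ) : ℤ) := Int.natCast_nonneg _
    have a2 : (0 : ℤ) ≤ ((l / g : ℕ) : ℤ) := Int.natCast_nonneg _
    have a3 : ((k / g : ℕ) : ℤ) < u := by exact_mod_cast hjk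
    have a4 : ((l / g : ℕ) : ℤ) < u := by exact_mod_cast hjl
    have h9 := zero_of_dvd_small u _ hB4 (by linarith) (by linarith)
    have : (k : ℤ) = l := by
      have h10 : ((k / g : ℕ) : ℤ) = ((l / g : ℕ) : ℤ) := by linarith
      rw [ek, el, h10]
    exact_mod_cast this
  have hD0 : x 1 - x 0 = 1 := by
    obtain ⟨k1, k2⟩ := hdiff 0
    simp only [Nat.zero_mod, zero_add] at k1 k2
    have h0 : (((X 1 - X 0 - 1 : ℤ)) : ZMod (g * u)) = 0 := by
      apply ofW
      · have e3 : X 1 - X 0 - 1 = (X 1 - W 1) - (X 0 - W 0) + (W 1 - W 0 - (w 1 - w 0)) +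
          (w 1 - w 0 - 1) := by ring
        rw [e3]
        exact dvd_add (dvd_add (dvd_sub (hXW 1) (hXW 0)) k1) h01
      · have hV2 : V 1 - V 0 = 2 := by rw [k2, h01']; simp
        have e3 : 2 * (X 1 - X 0 - 1) = (2 * X 1 - V 1) - (2 * X 0 - V 0) + (V 1 - V 0 - 2) := by
          ring
        rw [e3, hV2, sub_self, add_zero]
        exact dvd_sub (hXV 1) (hXV 0)
    push_cast at h0
    exact sub_eq_zero.1 h0
  have hDl : x (g * u - 1 + 1) - x (g * u - 1) = 0 := by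
    have hmod : (g * u - 1) % g = g - 1 := by
      obtain ⟨u', rfl⟩ : ∃ u', u = u' + 1 := ⟨u - 1, by omega⟩
      have : g * (u' + 1) - 1 = (g - 1) + g * u' := by
        rw [mul_add, mul_one]; omega
      rw [this, Nat.add_mul_mod_self_left, Nat.mod_eq_of_lt (by omega)]
    obtain ⟨k1, k2⟩ := hdiff (g * u - 1)
    rw [hmod, show g - 1 + 1 = g by omega] at k1 k2
    have h0 : (((X (g * u - 1 + 1) - X (g * u - 1) : ℤ)) : ZMod (g * u)) = 0 := by
      apply ofW
      · have e3 : X (g * u - 1 + 1) - X (g * u - 1) =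
          (X (g * u - 1 + 1) - W (g * u - 1 + 1)) - (X (g * u - 1) - W (g * u - 1)) +
          (W (g * u - 1 + 1) - W (g * u - 1) - (w g - w (g - 1))) + (w g - w (g - 1)) := by ring
        rw [e3]
        exact dvd_add (dvd_add (dvd_sub (hXW _) (hXW _)) k1) hl
      · have hV2 : V (g * u - 1 + 1) - V (g * u - 1) = (v g - v (g - 1)) * (g * u) := by
          rw [k2, hbg]
          have e4 : ((g * u - 1 : ℕ) : ℤ) = (g : ℤ) * u - 1 := by
            rw [Nat.cast_sub (by omega)]; push_cast; ring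
          rw [e4]
          have e5 : b 0 = b (g - 1) - v (g - 1) := by linarith
          rw [e5]; ring
        have e3 : 2 * (X (g * u - 1 + 1) - X (g * u - 1)) =
          (2 * X (g * u - 1 + 1) - V (g * u - 1 + 1)) - (2 * X (g * u - 1) - V (g * u - 1)) +
          (V (g * u - 1 + 1) - V (g * u - 1)) := by ring
        rw [e3, hV2]
        refine dvd_add (dvd_sub (hXV _) (hXV _)) ?_
        refine dvd_mul_of_dvd_right ?_ _
        have : (g : ℤ) * u = (e : ℤ) * ((h * u : ℕ) : ℤ) := by rw [← hgmul]; push_cast; ring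
        rw [this]
        exact dvd_mul_left _ _
    push_cast at h0
    exact h0
  apply good_of_seq (g * u) hm x
  · intro i j hi1 hi2 hj1 hj2 heq
    have h0 : ((X i - X j : ℤ) : ZMod (g * u)) = 0 := by
      push_cast
      exact sub_eq_zero.2 heq
    obtain ⟨hA, hB⟩ := toW _ h0
    apply core1 i j hi2 hj2
    · have : (w (i % g) + ((i / g : ℕ) : ℤ) * ((g / 2 : ℕ) : ℤ)) -
          (w (j % g) + ((j / g : ℕ) : ℤ) * ((g / 2 : ℕ) : ℤ)) =
          (X i - X j) - (X i - W i) + (X j - W j) := by simp only [hW]; ring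
      rw [this]
      exact dvd_add (dvd_sub hA (hXW _)) (hXW _)
    · have : (v (i % g) * i + b (i % g)) - (v (j % g) * j + b (j % g)) =
          2 * (X i - X j) - (2 * X i - V i) + (2 * X j - V j) := by simp only [hV]; ring
      rw [this]
      exact dvd_add (dvd_sub hB (hXV _)) (hXV _)
  · intro i j hi1 hi2 hj1 hj2 heq
    have h0 : (((X i - i) - (X j - j) : ℤ) : ZMod (g * u)) = 0 := by
      push_cast
      exact sub_eq_zero.2 heq
    obtain ⟨hA, hB⟩ := toW _ h0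
    obtain ⟨i', rfl⟩ : ∃ i', i = i' + 1 := ⟨i - 1, by omega⟩
    obtain ⟨j', rfl⟩ : ∃ j', j = j' + 1 := ⟨j - 1, by omega⟩
    obtain ⟨i1, i2⟩ := hstep i'
    obtain ⟨j1, j2⟩ := hstep j'
    have := core2 i' j' (by omega) (by omega) ?_ ?_
    · omega
    · have ei : ((i' : ℕ) : ℤ) = (g : ℤ) * (i' / g : ℕ) + (i' % g : ℕ) := by
        exact_mod_cast (Nat.div_add_mod i' g).symm
      have ej : ((j' : ℕ) : ℤ) = (g : ℤ) * (j' / g : ℕ) + (j' % g : ℕ) := by
        exact_mod_cast (Nat.div_add_mod j' g).symm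
      have : (w (i' % g + 1) - (((i' % g : ℕ) : ℤ) + 1) + ((i' / g : ℕ) : ℤ) * ((g / 2 : ℕ) : ℤ)) -
          (w (j' % g + 1) - (((j' % g : ℕ) : ℤ) + 1) + ((j' / g : ℕ) : ℤ) * ((g / 2 : ℕ) : ℤ)) =
          ((X (i' + 1) - ((i' + 1 : ℕ) : ℤ)) - (X (j' + 1) - ((j' + 1 : ℕ) : ℤ))) -
          (X (i' + 1) - W (i' + 1)) + (X (j' + 1) - W (j' + 1)) -
          (W (i' + 1) - (w (i' % g + 1) + (i' / g : ℕ) * (g / 2 : ℕ))) +
          (W (j' + 1) - (w (j' % g + 1) + (j' / g : ℕ) * (g / 2 : ℕ))) +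
          (g : ℤ) * (((i' / g : ℕ) : ℤ) - ((j' / g : ℕ) : ℤ)) := by
        push_cast at ei ej ⊢
        linear_combination ei - ej
      rw [this]
      exact dvd_add (dvd_add (dvd_sub (dvd_add (dvd_sub hA (hXW _)) (hXW _)) i1) j1)
        (dvd_mul_right _ _)
    · have : ((v (i' % g + 1) - 2) * (i' : ℤ) + (b (i' % g + 1) + v (i' % g + 1) - 2)) -
          ((v (j' % g + 1) - 2) * (j' : ℤ) + (b (j' % g + 1) + v (j' % g + 1) - 2)) =
          2 * ((X (i' + 1) - ((i' + 1 : ℕ) : ℤ)) - (X (j' + 1) - ((j' + 1 : ℕ) : ℤ))) -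
          (2 * X (i' + 1) - V (i' + 1)) + (2 * X (j' + 1) - V (j' + 1)) := by
        rw [i2, j2]; push_cast; ring
      rw [this]
      exact dvd_add (dvd_sub hB (hXV _)) (hXV _)
  · intro i j hi1 hi2 hj1 hj2 h
    exact hDinj i j (by omega) (by omega) h
  · intro i hi1 hi2
    constructor
    · intro h0
      have := hDinj i (g * u - 1) (by omega) (by omega) (by rw [h0, hDl])
      omega
    · intro h1
      have := hDinj i 0 (by omega) (by omega) (by rw [h1, ← hD0])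
      omega

end DNeo
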