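import Mathlib
import Pool.Agent.Lib.MP_162c7e_co.Lift2

/-!
Finite certificates for the lifting theorem, and their checker.
-/

set_option autoImplicit false

namespace DNeo

/-- A certificate: for each class `r` modulo `g = e h` the residue, the slope and the offset. -/
structure Cert where
  g : ℕ
  e : ℕ
  h : ℕ
  W : List ℕ
  V : List ℤ
  B : List ℤ

namespace Cert

def w (c : Cert) (r : ℕ) : ℤ := if r < c.g then (c.W.getD r 0 : ℕ) else
  ((c.W.getD 0 0 + c.g / 2 : ℕ) : ℤ)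
def v (c : Cert) (r : ℕ) : ℤ := if r < c.g then c.V.getD r 0 else c.V.getD 0 0
def b (c : Cert) (r : ℕ) : ℤ := if r < c.g then c.B.getD r 0 else c.B.getD 0 0

/-- pairing data: residue, absolute slope, normalised offset -/
def xs (c : Cert) : List (ℤ × ℤ × ℤ) := (List.range c.g).map fun r =>
  (c.w r % c.g, |c.v r|, nrm c.g (c.v r) (c.b r) r)
def zs (c : Cert) : List (ℤ × ℤ × ℤ) := (List.range c.g).map fun r =>
  ((c.w (r + 1) - (r + 1)) % c.g, |c.v (r + 1) - 2|,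
    nrm c.g (c.v (r + 1) - 2) (c.b (r + 1) + c.v (r + 1) - 2) r)
def es (c : Cert) : List ℤ := (List.range c.g).map fun r => (c.w (r + 1) - c.w r) % c.g

def pairOK (g : ℤ) (h : ℤ) (L : List (ℤ × ℤ × ℤ)) : Bool :=
  L.all fun p => L.all fun q => if (p.1 - q.1 - h) % g = 0 then decide (p.2 = q.2) else true

/-- allowed numbers: products of powers of the primes in `P` -/
def unitOK (P : ℕ) (a : ℤ) : Bool := decide (a ≠ 0) && decide ((P : ℤ) ^ 8 % a = 0)

def ok (P : ℕ) (c : Cert) : Bool :=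
  decide (c.g = c.e * c.h) && decide (c.h % 2 = 1) && decide (P % 2 = 0) &&
  unitOK 2 (c.e : ℤ) &&
  decide (c.g % 2 = 0) && decide (6 ≤ c.g) &&
  decide (c.v 0 = c.v c.g) && decide (c.b 0 = c.b c.g) &&
  ((List.range c.g).all fun r => unitOK P (c.v r) && unitOK P (c.v (r + 1) - 2) &&
    unitOK P (c.v (r + 1) - c.v r) && decide ((c.v r - 1) % 2 = 0) &&
    decide ((c.v r * r + c.b r - 2 * c.w r) % c.h = 0)) &&
  decide ((c.xs.map Prod.fst).Nodup) && decide ((c.zs.map Prod.fst).Nodup) &&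
  decide (c.es.Nodup) &&
  pairOK c.g (c.g / 2 : ℕ) c.xs && pairOK c.g (c.g / 2 : ℕ) c.zs &&
  decide ((c.w 1 - c.w 0 - 1) % c.g = 0) && decide (c.v 1 + c.b 1 - c.b 0 = 2) &&
  decide ((c.w c.g - c.w (c.g - 1)) % c.g = 0) &&
  decide (c.b 0 + c.v (c.g - 1) - c.b (c.g - 1) = 0)

end Cert

theorem unitOK_sound (P u : ℕ) (hu : Nat.Coprime P u) (a : ℤ) (h : Cert.unitOK P a = true) :
    IsCoprime (u : ℤ) a := by
  unfold Cert.unitOK at h
  rw [Bool.and_eq_true, decide_eq_true_eq, decide_eq_true_eq] at h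
  have h1 : a ∣ (P : ℤ) ^ 8 := Int.dvd_of_emod_eq_zero h.2
  have h2 : IsCoprime (u : ℤ) ((P : ℤ) ^ 8) :=
    IsCoprime.pow_right ((Nat.isCoprime_iff_coprime.2 hu).symm)
  exact IsCoprime.of_isCoprime_of_dvd_right h2 h1

theorem nodup_range {g : ℕ} {f : ℕ → ℤ} (h : ((List.range g).map fun r => f r % (g : ℤ)).Nodup)
    (r : ℕ) (hr : r < g) (s : ℕ) (hs : s < g) (hd : (g : ℤ) ∣ f r - f s) : r = s := by
  have := List.inj_on_of_nodup_map h
  apply this (List.mem_range.2 hr) (List.mem_range.2 hs)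
  exact Int.emod_eq_emod_iff_emod_sub_eq_zero.2 (Int.emod_eq_zero_of_dvd hd)

theorem cert_sound (P : ℕ) (c : Cert) (h : c.ok P = true) (u : ℕ) (hu : Nat.Coprime P u) :
    Good (c.g * u + 1) := by
  unfold Cert.ok at h
  simp only [Bool.and_eq_true, decide_eq_true_eq] at h
  obtain ⟨⟨⟨⟨⟨⟨⟨⟨⟨⟨⟨⟨⟨⟨⟨⟨⟨hgd, hh2⟩, hP2⟩, he⟩, hg⟩, hg6⟩, hv0⟩, hb0⟩, hall⟩, hxn⟩, hzn⟩, hen⟩,
    hxp⟩, hzp⟩, h01⟩, h01'⟩, hl⟩, hl'⟩ := h
  have hu2 : u % 2 = 1 := by
    rcases Nat.mod_two_eq_zero_or_one u with h | h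
    · exfalso
      have h2 : 2 ∣ P.gcd u := Nat.dvd_gcd (Nat.dvd_of_mod_eq_zero hP2) (Nat.dvd_of_mod_eq_zero h)
      rw [hu] at h2
      omega
    · exact h
  have c2 : ∀ n : ℕ, n % 2 = 1 → Nat.Coprime 2 n := by
    intro n hn
    rw [Nat.coprime_two_left]
    exact Nat.odd_iff.2 hn
  rw [List.all_eq_true] at hall
  have hall' : ∀ r < c.g, (IsCoprime (u : ℤ) (c.v r) ∧ IsCoprime (u : ℤ) (c.v (r + 1) - 2) ∧
      IsCoprime (u : ℤ) (c.v (r + 1) - c.v r)) ∧ (2 : ℤ) ∣ c.v r - 1 ∧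
      (c.h : ℤ) ∣ c.v r * r + c.b r - 2 * c.w r := by
    intro r hr
    have := hall r (List.mem_range.2 hr)
    simp only [Bool.and_eq_true, decide_eq_true_eq] at this
    exact ⟨⟨unitOK_sound P u hu _ this.1.1.1.1, unitOK_sound P u hu _ this.1.1.1.2,
      unitOK_sound P u hu _ this.1.1.2⟩, Int.dvd_of_emod_eq_zero this.1.2,
      Int.dvd_of_emod_eq_zero this.2⟩
  have hpair : ∀ (L : List (ℤ × ℤ × ℤ)), Cert.pairOK c.g (c.g / 2 : ℕ) L = true →
      ∀ p ∈ L, ∀ q ∈ L, (c.g : ℤ) ∣ p.1 - q.1 - (c.g / 2 : ℕ) → p.2 = q.2 := by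
    intro L hL p hp q hq hd
    unfold Cert.pairOK at hL
    rw [List.all_eq_true] at hL
    have h1 := hL p hp
    rw [List.all_eq_true] at h1
    have h2 := h1 q hq
    rw [if_pos (Int.emod_eq_zero_of_dvd hd)] at h2
    exact of_decide_eq_true h2
  apply lift2 c.e c.h c.g u hgd hg hg6 ?_ (unitOK_sound 2 u (c2 u hu2) _ he)
    (unitOK_sound 2 c.h (c2 c.h hh2) _ he) c.w c.v c.b
  · exact fun r hr => (hall' r hr).2.2
  · exact fun r hr => (hall' r hr).2.1
  · have : c.w c.g - c.w 0 - ((c.g / 2 : ℕ) : ℤ) = 0 := by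
      unfold Cert.w
      rw [if_neg (lt_irrefl _), if_pos (by omega)]
      push_cast; ring
    rw [this]; exact dvd_zero _
  · exact hv0.symm
  · exact hb0.symm
  · exact fun r hr => (hall' r hr).1.1
  · exact fun r hr => (hall' r hr).1.2.1
  · exact fun r hr => (hall' r hr).1.2.2
  · intro r hr s hs hd
    refine nodup_range (f := c.w) ?_ r hr s hs hd
    simpa [Cert.xs, List.map_map, Function.comp_def] using hxn
  · intro r hr s hs hd
    have := hpair _ hxp _ (List.mem_map.2 ⟨r, List.mem_range.2 hr, rfl⟩) _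
      (List.mem_map.2 ⟨s, List.mem_range.2 hs, rfl⟩) ?_
    · simp only [Prod.mk.injEq] at this
      exact this
    · simp only
      have e : c.w r % c.g - c.w s % c.g - ((c.g / 2 : ℕ) : ℤ) =
        (c.w r - c.w s - ((c.g / 2 : ℕ) : ℤ)) + (c.g : ℤ) * (c.w s / c.g - c.w r / c.g) := by
        have a1 := Int.emod_add_mul_ediv (c.w r) c.g
        have a2 := Int.emod_add_mul_ediv (c.w s) c.g
        linear_combination a1 - a2
      rw [e]
      exact dvd_add hd (dvd_mul_right _ _)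
  · intro r hr s hs hd
    refine nodup_range (f := fun r : ℕ => c.w (r + 1) - (r + 1)) ?_ r hr s hs hd
    simpa [Cert.zs, List.map_map, Function.comp_def] using hzn
  · intro r hr s hs hd
    have := hpair _ hzp _ (List.mem_map.2 ⟨r, List.mem_range.2 hr, rfl⟩) _
      (List.mem_map.2 ⟨s, List.mem_range.2 hs, rfl⟩) ?_
    · simp only [Prod.mk.injEq] at this
      exact this
    · simp only
      have e : (c.w (r + 1) - (r + 1)) % c.g - (c.w (s + 1) - (s + 1)) % c.g -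
        ((c.g / 2 : ℕ) : ℤ) =
        ((c.w (r + 1) - (r + 1)) - (c.w (s + 1) - (s + 1)) - ((c.g / 2 : ℕ) : ℤ)) +
        (c.g : ℤ) * ((c.w (s + 1) - (s + 1)) / c.g - (c.w (r + 1) - (r + 1)) / c.g) := by
        have a1 := Int.emod_add_mul_ediv (c.w (r + 1) - (r + 1)) c.g
        have a2 := Int.emod_add_mul_ediv (c.w (s + 1) - (s + 1)) c.g
        linear_combination a1 - a2
      rw [e]
      exact dvd_add hd (dvd_mul_right _ _)
  · intro r hr s hs hd
    refine nodup_range (f := fun r : ℕ => c.w (r + 1) - c.w r) ?_ r hr s hs hd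
    simpa [Cert.es] using hen
  · exact Int.dvd_of_emod_eq_zero h01
  · exact h01'
  · exact Int.dvd_of_emod_eq_zero hl
  · exact hl'
  · rw [Nat.mul_mod, hh2, hu2]

end DNeo
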