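import Mathlib
import Pool.Agent.Lib.MP_162c7e_co.Cert2

/-!
Certificates for the lifting theorem, found by computer; each is verified by the kernel.
-/

set_option autoImplicit false

namespace DNeo

def cert8 : Cert where
  g := 8
  e := 8
  h := 1
  W := [0, 1, 3, 6, 2, 7, 5, 4]
  V := [1, 3, -1, -3, 3, 1, -3, -1]
  B := [0, -1, -16, -19, -16, -15, -4, -1]

theorem cert8_ok : cert8.ok 30 = true := by decide +kernel

def cert12 : Cert where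
  g := 12
  e := 4
  h := 3
  W := [0, 1, 10, 4, 3, 8, 11, 9, 5, 7, 2, 6]
  V := [1, 3, 1, -1, 3, -1, 1, 3, -1, 3, 1, -1]
  B := [0, -1, -18, -25, -6, -15, -8, -15, -6, -25, -18, -1]

theorem cert12_ok : cert12.ok 6 = true := by decide +kernel

def cert14 : Cert where
  g := 14
  e := 2
  h := 7
  W := [0, 1, 11, 4, 6, 3, 12, 10, 13, 5, 9, 8, 2, 7]
  V := [1, 3, 1, -1, 1, -1, 3, 1, -1, 3, 1, 3, 1, -1]
  B := [0, -1, -22, -31, -20, -31, -22, -29, -22, -31, -20, -31, -22, -1]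

theorem cert14_ok : cert14.ok 6 = true := by decide +kernel

def cert18 : Cert where
  g := 18
  e := 2
  h := 9
  W := [0, 1, 5, 4, 15, 3, 10, 12, 2, 16, 7, 17, 14, 8, 13, 11, 6, 9]
  V := [1, 3, 1, -1, 1, -1, 3, -1, 1, -1, 1, 3, 1, 3, 1, -1, 1, -1]
  B := [0, -1, -10, -43, -28, -25, -16, -23, -4, -13, -14, -17, -20, -23, -42, 1, -40, -1]

theorem cert18_ok : cert18.ok 6 = true := by decide +kernel

def cert20 : Cert where
  g := 20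
  e := 4
  h := 5
  W := [0, 1, 7, 4, 13, 3, 2, 9, 14, 17, 5, 18, 16, 12, 6, 8, 19, 11, 15, 10]
  V := [1, 3, 1, -1, 1, -1, 3, -1, 1, -1, 1, 3, 1, 3, -1, 3, 1, 3, 1, -1]
  B := [0, -1, -48, -49, -58, -69, -34, -55, -40, -57, -40, -57, -40, -55, -34, -69, -58, -49, -48,
    -1]

theorem cert20_ok : cert20.ok 6 = true := by decide +kernel

def cert22 : Cert where
  g := 22
  e := 2
  h := 11
  W := [0, 1, 4, 17, 14, 10, 19, 5, 12, 18, 7, 6, 8, 20, 15, 9, 2, 16, 21, 3, 13, 11]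
  V := [1, 3, 1, -1, 3, 1, 3, 1, 3, 1, -1, 1, 3, 1, -1, 1, -1, 1, -1, 3, 1, -1]
  B := [0, -1, -16, -73, -28, -29, -2, -19, -22, -17, -20, -65, -20, -17, -22, -19, -2, -29, -28,
    -73, -16, -1]

theorem cert22_ok : cert22.ok 6 = true := by decide +kernel

def cert24 : Cert where
  g := 24
  e := 8
  h := 3
  W := [0, 1, 5, 14, 9, 20, 22, 16, 7, 10, 6, 18, 2, 19, 8, 13, 11, 21, 4, 3, 17, 23, 15, 12]
  V := [1, 3, -1, 1, 3, -1, 1, -1, 3, -1, 1, -1, 1, 3, 1, 3, -1, 3, 1, 3, -1, 1, 3, -1]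
  B := [0, -1, -12, 1, 6, -3, -34, -33, 14, -43, 2, -1, -8, -1, 2, -43, 14, -33, -34, -3, 6, 1,
    -12, -1]

theorem cert24_ok : cert24.ok 6 = true := by decide +kernel

def cert26 : Cert where
  g := 26
  e := 2
  h := 13
  W := [0, 1, 4, 22, 24, 12, 9, 2, 18, 25, 14, 19, 10, 5, 11, 21, 17, 3, 23, 8, 16, 20, 7, 6, 15,
    13]
  V := [1, 3, -1, 1, 3, 1, -1, 3, 1, -1, 3, 1, -1, 1, 3, 1, -1, 3, 1, -1, 3, 1, -1, 1, 3, -1]
  B := [0, -1, -42, -11, 10, -7, -28, 9, -24, -19, -28, 1, -20, -29, -20, 1, -28, -19, -24, 9, -28,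
    -7, 10, -11, -42, -1]

theorem cert26_ok : cert26.ok 6 = true := by decide +kernel

def cert28 : Cert where
  g := 28
  e := 4
  h := 7
  W := [0, 1, 5, 26, 11, 3, 22, 27, 10, 8, 15, 4, 18, 24, 23, 25, 20, 7, 19, 13, 16, 6, 2, 12, 21,
    9, 17, 14]
  V := [1, 3, 1, 3, 1, -1, 1, -1, 3, 1, 3, 1, -1, 3, 1, -1, 3, 1, -1, 1, -1, 3, 1, 3, 1, -1, 1, -1]
  B := [0, -1, -20, 43, 11, -17, 3, -2, 17, 0, -28, 18, 13, 2, 32, 2, 13, 18, -28, 0, 17, -2, 3,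
    -17, 11, 43, -20, -1]

theorem cert28_ok : cert28.ok 6 = true := by decide +kernel

def cert30 : Cert where
  g := 30
  e := 2
  h := 15
  W := [0, 1, 22, 7, 25, 17, 23, 26, 3, 8, 16, 20, 9, 11, 28, 18, 29, 13, 12, 24, 21, 14, 10, 4, 2,
    27, 6, 19, 5, 15]
  V := [1, 3, 1, -1, 1, -1, 1, -1, 1, -1, 3, 1, -1, 1, -1, 1, 3, 1, 3, 1, -1, 3, 1, 3, 1, 3, 1, 3,
    1, -1]
  B := [0, -1, -3, -28, -44, -6, -5, -16, -62, -20, -28, 14, 15, -6, -5, -69, -5, -6, 15, 14, -28,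
    -20, -62, -16, -5, -6, -44, -28, -3, -1]

theorem cert30_ok : cert30.ok 6 = true := by decide +kernel

def cert34 : Cert where
  g := 34
  e := 2
  h := 17
  W := [0, 1, 16, 14, 26, 20, 8, 27, 4, 22, 18, 15, 7, 6, 33, 9, 23, 29, 24, 11, 2, 10, 12, 21, 25,
    30, 13, 3, 19, 32, 5, 28, 31, 17]
  V := [1, 3, 1, -1, 1, 3, 1, -1, 3, 1, 3, -1, 1, 3, 1, -1, 3, 1, -1, 3, 1, -1, 1, 3, -1, 1, -1, 3,
    1, -1, 1, 3, 1, -1]
  B := [0, -1, -4, -3, 48, 59, -24, -7, 86, 69, -28, 41, 2, 7, -16, 33, -2, 7, -2, 33, -16, 7, 2,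
    41, -28, 69, 86, -7, -24, 59, 48, -3, -4, -1]

theorem cert34_ok : cert34.ok 6 = true := by decide +kernel

def cert36 : Cert where
  g := 36
  e := 4
  h := 9
  W := [0, 1, 16, 6, 33, 30, 13, 8, 31, 15, 4, 2, 23, 22, 10, 17, 26, 34, 3, 35, 28, 20, 14, 27,
    29, 9, 12, 24, 5, 19, 25, 7, 11, 21, 32, 18]
  V := [1, 3, 1, 3, -1, 1, 3, -1, 3, -1, 3, 1, -1, 3, 1, 3, 1, -1, 1, 3, 1, -1, 1, -1, 3, 1, -1, 3,
    -1, 3, -1, 1, 3, -1, 1, -1]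
  B := [0, -1, -78, 3, -74, -53, -28, -85, -34, -69, -58, -79, -50, -67, -66, -83, -72, -95, -12,
    -95, -72, -83, -66, -67, -50, -79, -58, -69, -34, -85, -28, -53, -74, 3, -78, -1]

theorem cert36_ok : cert36.ok 6 = true := by decide +kernel

def cert38 : Cert where
  g := 38
  e := 2
  h := 19
  W := [0, 1, 23, 28, 21, 37, 29, 3, 14, 12, 7, 9, 27, 24, 5, 31, 8, 18, 32, 26, 33, 20, 11, 35,
    10, 30, 34, 17, 16, 22, 25, 15, 4, 13, 36, 6, 2, 19]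
  V := [1, 3, 1, 3, 1, -1, 3, -1, 1, 3, 1, 3, -1, 1, -1, 3, 1, -1, 3, 1, -1, 3, 1, -1, 3, 1, 3, -1,
    1, -1, 1, 3, -1, 3, 1, -1, 1, -1]
  B := [0, -1, -70, 9, -38, -73, -74, -139, -18, -117, -148, -15, -124, -117, -128, -135, -114,
    -61, -28, -157, -28, -61, -114, -135, -128, -117, -124, -15, -148, -117, -18, -139, -74,
    -73, -38, 9, -70, -1]

theorem cert38_ok : cert38.ok 6 = true := by decide +kernel

def cert40 : Cert where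
  g := 40
  e := 8
  h := 5
  W := [0, 1, 19, 39, 9, 38, 14, 11, 6, 36, 35, 21, 34, 3, 17, 22, 4, 12, 29, 32, 26, 33, 31, 15,
    8, 27, 23, 10, 2, 30, 5, 7, 18, 24, 28, 13, 25, 16, 37, 20]
  V := [1, 3, 1, -1, 3, -1, 1, -1, 1, 3, 1, 3, 1, 3, -1, 1, 3, 1, 3, -1, 1, 3, -1, 1, -1, 1, 3, -1,
    1, -1, 1, -1, 1, 3, 1, 3, -1, 3, 1, -1]
  B := [0, -1, -84, -119, -34, -119, -58, -91, -116, -35, -60, -31, -64, -33, -72, -51, -40, -73,
    -76, -77, -128, -77, -76, -73, -40, -51, -72, -33, -64, -31, -60, -35, -116, -91, -58,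
    -119, -34, -119, -84, -1]

theorem cert40_ok : cert40.ok 6 = true := by decide +kernel

def cert42 : Cert where
  g := 42
  e := 2
  h := 21
  W := [0, 1, 13, 39, 3, 17, 8, 38, 11, 7, 5, 41, 31, 28, 30, 6, 29, 14, 22, 2, 26, 35, 27, 4, 25,
    18, 34, 12, 37, 36, 40, 9, 16, 19, 24, 10, 23, 33, 20, 15, 32, 21]
  V := [1, 3, -1, 3, 1, -1, 1, -1, 3, 1, 3, -1, 3, 1, 3, -1, 1, -1, 3, 1, 3, 1, -1, 1, -1, 3, 1, 3,
    -1, 1, -1, 3, -1, 1, -1, 3, 1, 3, 1, -1, 3, -1]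
  B := [0, -1, -98, 69, 2, -3, -74, -1, -2, 47, 64, 9, 68, 43, 60, 27, -84, 3, -52, -57, 34, 7, 34,
    -57, -52, 3, -84, 27, 60, 43, 68, 9, 64, 47, -2, -1, -74, -3, 2, 69, -98, -1]

theorem cert42_ok : cert42.ok 6 = true := by decide +kernel

def cert44 : Cert where
  g := 44
  e := 4
  h := 11
  W := [0, 1, 40, 31, 3, 15, 42, 13, 10, 23, 25, 19, 33, 8, 4, 27, 35, 2, 5, 26, 18, 38, 11, 39,
    20, 29, 9, 7, 41, 34, 12, 17, 43, 30, 37, 36, 24, 28, 14, 32, 21, 6, 16, 22]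
  V := [1, 3, -1, 3, -1, 3, 1, 3, 1, 3, -1, 1, -1, 1, 3, 1, 3, 1, -1, 3, 1, 3, 1, -1, 1, -1, 3, 1,
    -1, 1, -1, 1, 3, 1, 3, -1, 1, -1, 1, -1, 3, -1, 3, -1]
  B := [0, -1, -94, -35, -210, -117, -54, -39, -120, -25, -204, -61, -186, -41, -78, -93, -66,
    -101, -104, -93, -72, -31, -176, -31, -72, -93, -104, -101, -66, -93, -78, -41, -186,
    -61, -204, -25, -120, -39, -54, -117, -210, -35, -94, -1]

theorem cert44_ok : cert44.ok 6 = true := by decide +kernel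

def cert46 : Cert where
  g := 46
  e := 2
  h := 23
  W := [0, 1, 38, 19, 41, 36, 45, 28, 18, 6, 37, 3, 10, 7, 22, 27, 25, 24, 43, 5, 26, 40, 11, 34,
    12, 42, 29, 9, 2, 30, 32, 35, 31, 17, 21, 15, 4, 20, 33, 44, 16, 8, 14, 39, 13, 23]
  V := [1, 3, -1, 1, -1, 3, 1, 3, -1, 1, 3, 1, 3, -1, 1, -1, 1, 3, 1, 3, 1, 3, -1, 1, 3, -1, 1, -1,
    1, -1, 1, 3, 1, 3, -1, 1, -1, 1, 3, -1, 1, -1, 3, 1, 3, -1]
  B := [0, -1, -106, -11, -98, 11, -8, -11, -94, -89, -2, -97, -16, -65, -16, -23, -58, -49, -70,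
    -47, -106, -29, -2, -1, -2, -29, -106, -47, -70, -49, -58, -23, -16, -65, -16, -97, -2,
    -89, -94, -11, -8, 11, -98, -11, -106, -1]

theorem cert46_ok : cert46.ok 6 = true := by decide +kernel

def cert48 : Cert where
  g := 48
  e := 16
  h := 3
  W := [0, 1, 36, 34, 33, 21, 46, 28, 6, 47, 3, 13, 20, 41, 2, 18, 29, 8, 25, 30, 19, 39, 9, 43,
    38, 44, 11, 42, 23, 35, 31, 15, 37, 27, 12, 4, 32, 26, 17, 14, 22, 45, 16, 40, 5, 7, 10,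
    24]
  V := [1, 3, -1, 3, -1, 3, 1, -1, 1, 3, 1, -1, 3, 1, 3, 1, 3, -1, 3, 1, -1, 3, 1, -1, 1, 3, 1, -1,
    3, 1, -1, 3, -1, 1, -1, 1, -1, 3, 1, -1, 1, 3, 1, -1, 3, -1, 3, -1]
  B := [0, -1, -166, -37, -266, -165, -202, -273, -236, -317, -292, -203, -332, -267, -134, -315,
    -182, -351, -52, -247, -374, -321, -244, -371, -332, -371, -244, -321, -374, -247, -52,
    -351, -182, -315, -134, -267, -332, -203, -292, -317, -236, -273, -202, -165, -266, -37,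
    -166, -1]

theorem cert48_ok : cert48.ok 6 = true := by decide +kernel

def cert50 : Cert where
  g := 50
  e := 2
  h := 25
  W := [0, 1, 18, 20, 46, 40, 19, 6, 45, 31, 14, 35, 8, 32, 2, 5, 48, 3, 16, 22, 4, 39, 30, 34, 26,
    37, 27, 36, 33, 43, 9, 28, 23, 11, 7, 15, 13, 44, 21, 49, 29, 47, 12, 24, 38, 10, 17,
    42, 41, 25]
  V := [1, 3, -1, 1, 3, -1, 1, 3, 1, 3, -1, 3, -1, 3, 1, 3, -1, 1, 3, 1, 3, 1, 3, 1, 3, 1, -1, 1,
    -1, 1, -1, 1, -1, 1, 3, -1, 1, -1, 3, -1, 3, -1, 1, -1, 1, 3, -1, 1, 3, -1]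
  B := [0, -1, -212, -213, -170, -265, -68, -159, -218, -165, -212, -163, -272, -75, -60, -235,
    -138, -161, -122, -175, -152, -193, -256, -155, -70, -201, -70, -155, -256, -193, -152,
    -175, -122, -161, -138, -235, -60, -75, -272, -163, -212, -165, -218, -159, -68, -265,
    -170, -213, -212, -1]

theorem cert50_ok : cert50.ok 6 = true := by decide +kernel

def cert52 : Cert where
  g := 52
  e := 4
  h := 13
  W := [0, 1, 44, 28, 13, 45, 2, 17, 43, 50, 4, 18, 49, 47, 25, 30, 29, 10, 23, 5, 34, 27, 38, 21,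
    46, 6, 3, 7, 48, 24, 42, 32, 40, 12, 31, 19, 39, 41, 37, 8, 11, 33, 20, 15, 9, 36, 22,
    14, 35, 51, 16, 26]
  V := [1, 3, 1, 3, 1, -1, 3, -1, 1, -1, 1, -1, 1, 3, 1, -1, 1, 3, -1, 3, -1, 3, 1, 3, 1, -1, 1, 3,
    1, -1, 1, -1, 3, -1, 3, -1, 1, 3, 1, -1, 1, 3, 1, 3, 1, 3, -1, 3, 1, -1, 1, -1]
  B := [0, -1, -70, -57, -186, -165, -66, -219, -182, -151, -106, -109, -70, -101, -68, -133, -218,
    -135, -92, -47, -120, -61, -50, -131, -88, -67, -228, -67, -88, -131, -50, -61, -120,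
    -47, -92, -135, -218, -133, -68, -101, -70, -109, -106, -151, -182, -219, -66, -165,
    -186, -57, -70, -1]

theorem cert52_ok : cert52.ok 6 = true := by decide +kernel

def cert54 : Cert where
  g := 54
  e := 2
  h := 27
  W := [0, 1, 52, 22, 8, 4, 36, 25, 20, 41, 50, 24, 17, 15, 34, 18, 38, 2, 44, 6, 35, 37, 28, 7,
    48, 19, 9, 16, 10, 21, 51, 11, 33, 43, 42, 14, 53, 12, 49, 30, 47, 29, 32, 40, 13, 5,
    39, 45, 3, 26, 31, 46, 23, 27]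
  V := [1, 3, 1, 3, 1, -1, 3, -1, 3, -1, 1, 3, -1, 3, -1, 3, -1, 1, -1, 1, -1, 1, 3, 1, -1, 1, 3,
    1, -1, 1, 3, 1, -1, 1, 3, 1, 3, 1, 3, -1, 3, -1, 3, -1, 1, 3, -1, 3, -1, 3, 1, -1, 1,
    -1]
  B := [0, -1, -60, -19, -96, -95, 0, -105, -38, -71, -18, 15, -62, -63, -134, -9, -124, -67, -56,
    -61, -126, -55, -64, -117, -42, -41, -60, -49, -60, -41, -42, -117, -64, -55, -126, -61,
    -56, -67, -124, -9, -134, -63, -62, 15, -18, -71, -38, -105, 0, -95, -96, -19, -60, -1]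

theorem cert54_ok : cert54.ok 6 = true := by decide +kernel

def cert56 : Cert where
  g := 56
  e := 8
  h := 7
  W := [0, 1, 6, 48, 14, 3, 52, 51, 5, 24, 12, 41, 47, 50, 8, 29, 33, 23, 39, 46, 27, 4, 31, 15,
    40, 10, 19, 53, 36, 54, 21, 13, 44, 20, 37, 11, 35, 55, 49, 34, 45, 42, 22, 9, 7, 2, 30,
    43, 25, 16, 18, 26, 38, 17, 32, 28]
  V := [1, 3, 1, -1, 1, 3, -1, 3, -1, 1, 3, 1, -1, 3, -1, 3, -1, 3, -1, 3, -1, 1, 3, 1, 3, 1, -1,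
    3, 1, -1, 3, 1, -1, 1, -1, 1, 3, -1, 3, -1, 3, -1, 3, -1, 3, 1, -1, 1, 3, -1, 3, -1, 1,
    3, 1, -1]
  B := [0, -1, 10, 43, -32, 159, -2, 25, 74, 39, 50, 15, 50, 117, 30, -43, 82, -5, 40, 91, 74, 43,
    108, 63, 8, -5, 64, 137, 44, 137, 64, -5, 8, 63, 108, 43, 74, 91, 40, -5, 82, -43, 30,
    117, 50, 15, 50, 39, 74, 25, -2, 159, -32, 43, 10, -1]

theorem cert56_ok : cert56.ok 6 = true := by decide +kernel

end DNeo
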