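import Mathlib
import Pool.Agent.Lib.MP_162c7e_co.Lift

/-!
The lifting data modulo `2 ^ a` given by the triangular numbers.
-/

set_option autoImplicit false

namespace DNeo

/-- triangular numbers -/
def T (r : ℕ) : ℤ := ((r * (r + 1) / 2 : ℕ) : ℤ)

theorem two_T (r : ℕ) : 2 * T r = (r : ℤ) * (r + 1) := by
  unfold T
  have h : 2 ∣ r * (r + 1) := (Nat.even_mul_succ_self r).two_dvd
  obtain ⟨k, hk⟩ := h
  rw [hk, Nat.mul_div_cancel_left _ (by norm_num)]
  have : ((r * (r + 1) : ℕ) : ℤ) = ((2 * k : ℕ) : ℤ) := by rw [hk]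
  push_cast at this
  linarith

theorem T_succ (r : ℕ) : T (r + 1) = T r + (r + 1) := by
  have h1 := two_T r
  have h2 := two_T (r + 1)
  push_cast at h2
  nlinarith

theorem T_inj (a : ℕ) (r s : ℕ) (hr : r < 2 ^ a) (hs : s < 2 ^ a)
    (h : ((2 ^ a : ℕ) : ℤ) ∣ T r - T s) : r = s := by
  have h2 : ((2 : ℤ) ^ (a + 1)) ∣ ((r : ℤ) - s) * (r + s + 1) := by
    obtain ⟨c, hc⟩ := h
    refine ⟨c, ?_⟩
    have h1 := two_T r
    have h3 := two_T s
    push_cast at hc
    rw [pow_succ]
    linear_combination (-1 : ℤ) * h1 + h3 + 2 * hc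
  have hr' : (r : ℤ) < 2 ^ a := by exact_mod_cast hr
  have hs' : (s : ℤ) < 2 ^ a := by exact_mod_cast hs
  have hp : (2 : ℤ) ^ (a + 1) = 2 * 2 ^ a := by ring
  rcases Int.emod_two_eq_zero_or_one ((r : ℤ) - s) with hpar | hpar
  · have hodd : IsCoprime ((2 : ℤ) ^ (a + 1)) ((r : ℤ) + s + 1) := by
      apply IsCoprime.pow_left
      obtain ⟨k, hk⟩ : ∃ k, (r : ℤ) + s + 1 = 2 * k + 1 := ⟨((r : ℤ) + s) / 2, by omega⟩
      exact ⟨-k, 1, by rw [hk]; ring⟩
    have h3 := hodd.dvd_of_dvd_mul_right h2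
    obtain ⟨c, hc⟩ := h3
    have : c = 0 := by
      by_contra hne
      rcases lt_or_gt_of_ne hne with h | h
      · have : (2 : ℤ) ^ (a + 1) * c ≤ -(2 : ℤ) ^ (a + 1) := by
          nlinarith [pow_pos (show (0 : ℤ) < 2 by norm_num) (a + 1)]
        omega
      · have : (2 : ℤ) ^ (a + 1) ≤ (2 : ℤ) ^ (a + 1) * c := by
          nlinarith [pow_pos (show (0 : ℤ) < 2 by norm_num) (a + 1)]
        omega
    rw [this, mul_zero] at hc
    omega
  · exfalso
    have hodd : IsCoprime ((2 : ℤ) ^ (a + 1)) ((r : ℤ) - s) := by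
      apply IsCoprime.pow_left
      obtain ⟨k, hk⟩ : ∃ k, (r : ℤ) - s = 2 * k + 1 := ⟨((r : ℤ) - s) / 2, by omega⟩
      exact ⟨-k, 1, by rw [hk]; ring⟩
    have h3 := hodd.dvd_of_dvd_mul_left h2
    have := Int.le_of_dvd (by omega) h3
    omega

theorem T_pair (a : ℕ) (ha : 1 ≤ a) (r s : ℕ) (hr : r < 2 ^ a) (hs : s < 2 ^ a)
    (h : ((2 ^ a : ℕ) : ℤ) ∣ T r - T s - ((2 ^ a / 2 : ℕ) : ℤ)) : s = 2 ^ a - 1 - r := by
  obtain ⟨b, rfl⟩ : ∃ b, a = b + 1 := ⟨a - 1, by omega⟩
  have hL : 2 ^ (b + 1) / 2 = 2 ^ b := by rw [pow_succ]; omega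
  rw [hL] at h
  have h1 : ((2 ^ (b + 1) : ℕ) : ℤ) ∣ T r - T (2 ^ (b + 1) - 1 - s) := by
    have hP : ((2 ^ (b + 1) : ℕ) : ℤ) = 2 * ((2 ^ b : ℕ) : ℤ) := by push_cast; ring
    have e : T r - T (2 ^ (b + 1) - 1 - s) = (T r - T s - ((2 ^ b : ℕ) : ℤ)) +
        ((2 ^ (b + 1) : ℕ) : ℤ) * (s + 1 - ((2 ^ b : ℕ) : ℤ)) := by
      have h3 := two_T s
      have h4 := two_T (2 ^ (b + 1) - 1 - s)
      have h5 : ((2 ^ (b + 1) - 1 - s : ℕ) : ℤ) = 2 * ((2 ^ b : ℕ) : ℤ) - 1 - s := by
        rw [Nat.sub_sub, Nat.cast_sub (by omega), hP]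
        push_cast
        ring
      rw [h5] at h4
      rw [hP]
      have h6 : 2 * (T r - T (2 ^ (b + 1) - 1 - s)) = 2 * ((T r - T s - ((2 ^ b : ℕ) : ℤ)) +
        (2 * ((2 ^ b : ℕ) : ℤ)) * (s + 1 - ((2 ^ b : ℕ) : ℤ))) := by
        linear_combination h3 - h4
      linarith
    rw [e]
    exact dvd_add h (dvd_mul_right _ _)
  have := T_inj (b + 1) r (2 ^ (b + 1) - 1 - s) hr (by omega) h1
  omega

/-- slopes on the first half -/
def vh (L i : ℕ) : ℤ :=
  if i = 0 then 1 else if i + 4 ≤ L then (if i % 2 = 1 then 3 else -1)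
  else if i + 3 = L then 1 else if i + 2 = L then 3 else if i + 1 = L then -1 else 1

/-- offsets on the first half -/
def bh (L i : ℕ) : ℤ :=
  if i = 0 then 0 else
  if i + 4 ≤ L then (if i % 2 = 1 then -1 + ((i : ℤ) - 1) ^ 2 - 2 * L * ((i : ℤ) - 1)
    else (i : ℤ) * (i + 2) - 2 * L * (i + 1))
  else if i + 3 = L then ((L : ℤ) - 3) * ((L : ℤ) - 3 - 2 * L)
  else if i + 2 = L then ((L : ℤ) - 3) * ((L : ℤ) - 3 - 2 * L) - 1
  else if i + 1 = L then ((L : ℤ) - 3) * ((L : ℤ) - 3 - 2 * L) - 1 + 6 * ((L : ℤ) - 2) - 6 * L + 3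
  else ((L : ℤ) - 3) * ((L : ℤ) - 3 - 2 * L) - 1 + 6 * ((L : ℤ) - 2) - 6 * L + 4

/-- the possible consecutive slopes -/
theorem chain (L i : ℕ) (hL : L % 2 = 0) (hL8 : 6 ≤ L) (hi : i < L) :
    ((vh L i = 1 ∧ vh L (i + 1) = 3 ∧ bh L (i + 1) = bh L i - 1) ∨
     (vh L i = 3 ∧ vh L (i + 1) = -1 ∧ bh L (i + 1) = bh L i + 6 * i - 6 * L + 3) ∨
     (vh L i = -1 ∧ vh L (i + 1) = 3 ∧ bh L (i + 1) = bh L i + 2 * L - 1 - 2 * i) ∨
     (vh L i = -1 ∧ vh L (i + 1) = 1 ∧ bh L (i + 1) = bh L i + 1)) := by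
  rcases Nat.eq_zero_or_pos i with h0 | h0
  · subst h0
    left
    refine ⟨by simp [vh], ?_, ?_⟩
    · unfold vh
      rw [if_neg (by omega), if_pos (by omega), if_pos (by omega)]
    · unfold bh
      rw [if_neg (by omega), if_pos (by omega), if_pos (by omega), if_pos rfl]
      push_cast; ring
  · by_cases h1 : i + 5 ≤ L
    · rcases Nat.mod_two_eq_zero_or_one i with hp | hp
      · right; right; left
        refine ⟨?_, ?_, ?_⟩
        · unfold vh
          rw [if_neg (by omega), if_pos (by omega), if_neg (by omega)]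
        · unfold vh
          rw [if_neg (by omega), if_pos (by omega), if_pos (by omega)]
        · unfold bh
          rw [if_neg (by omega), if_pos (by omega), if_pos (by omega), if_neg (by omega),
            if_pos (by omega), if_neg (by omega)]
          push_cast; ring
      · right; left
        refine ⟨?_, ?_, ?_⟩
        · unfold vh
          rw [if_neg (by omega), if_pos (by omega), if_pos (by omega)]
        · unfold vh
          rw [if_neg (by omega), if_pos (by omega), if_neg (by omega)]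
        · unfold bh
          rw [if_neg (by omega), if_pos (by omega), if_neg (by omega), if_neg (by omega),
            if_pos (by omega), if_pos (by omega)]
          push_cast; ring
    · rcases (show i + 4 = L ∨ i + 3 = L ∨ i + 2 = L ∨ i + 1 = L by omega) with h | h | h | h
      · right; right; right
        refine ⟨?_, ?_, ?_⟩
        · unfold vh
          rw [if_neg (by omega), if_pos (by omega), if_neg (by omega)]
        · unfold vh
          rw [if_neg (by omega), if_neg (by omega), if_pos (by omega)]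
        · unfold bh
          rw [if_neg (by omega), if_neg (by omega), if_pos (by omega), if_neg (by omega),
            if_pos (by omega), if_neg (by omega)]
          have : (L : ℤ) = i + 4 := by omega
          rw [this]; ring
      · left
        refine ⟨?_, ?_, ?_⟩
        · unfold vh
          rw [if_neg (by omega), if_neg (by omega), if_pos (by omega)]
        · unfold vh
          rw [if_neg (by omega), if_neg (by omega), if_neg (by omega), if_pos (by omega)]
        · unfold bh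
          rw [if_neg (by omega), if_neg (by omega), if_neg (by omega), if_pos (by omega),
            if_neg (by omega), if_neg (by omega), if_pos (by omega)]
      · right; left
        refine ⟨?_, ?_, ?_⟩
        · unfold vh
          rw [if_neg (by omega), if_neg (by omega), if_neg (by omega), if_pos (by omega)]
        · unfold vh
          rw [if_neg (by omega), if_neg (by omega), if_neg (by omega), if_neg (by omega),
            if_pos (by omega)]
        · unfold bh
          rw [if_neg (by omega), if_neg (by omega), if_neg (by omega), if_neg (by omega),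
            if_pos (by omega),
            if_neg (by omega), if_neg (by omega), if_neg (by omega), if_pos (by omega)]
          have : (L : ℤ) = i + 2 := by omega
          rw [this]; ring
      · right; right; right
        refine ⟨?_, ?_, ?_⟩
        · unfold vh
          rw [if_neg (by omega), if_neg (by omega), if_neg (by omega), if_neg (by omega),
            if_pos (by omega)]
        · unfold vh
          rw [if_neg (by omega), if_neg (by omega), if_neg (by omega), if_neg (by omega),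
            if_neg (by omega)]
        · unfold bh
          rw [if_neg (by omega), if_neg (by omega), if_neg (by omega), if_neg (by omega),
            if_neg (by omega),
            if_neg (by omega), if_neg (by omega), if_neg (by omega), if_neg (by omega),
            if_pos (by omega)]
          ring

/-- the two relations between consecutive classes used by the pairings -/
theorem chain_nrm (L i : ℕ) (hL : L % 2 = 0) (hL8 : 6 ≤ L) (hi : i < L) :
    |vh L i| = |2 - vh L (i + 1)| ∧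
    nrm (2 * L) (vh L i) (bh L i) i = nrm (2 * L) (2 - vh L (i + 1)) (bh L (i + 1)) (2 * L - 1 - i) ∧
    nrm (2 * L) (vh L (i + 1) - 2) (bh L (i + 1) + vh L (i + 1) - 2) i =
      nrm (2 * L) (-vh L i) (bh L i - vh L i) (2 * L - 1 - i) := by
  rcases chain L i hL hL8 hi with ⟨h1, h2, h3⟩ | ⟨h1, h2, h3⟩ | ⟨h1, h2, h3⟩ | ⟨h1, h2, h3⟩ <;>
  rw [h1, h2, h3] <;> simp only [nrm] <;> norm_num <;> constructor <;> ring

def vf (L r : ℕ) : ℤ := if r ≤ L then vh L r else 2 - vh L (2 * L - r)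
def bf (L r : ℕ) : ℤ := if r ≤ L then bh L r else bh L (2 * L - r)

theorem vh_zero (L : ℕ) : vh L 0 = 1 := by simp [vh]
theorem bh_zero (L : ℕ) : bh L 0 = 0 := by simp [bh]
theorem vh_top (L : ℕ) (hL : 6 ≤ L) : vh L L = 1 := by
  unfold vh
  rw [if_neg (by omega), if_neg (by omega), if_neg (by omega), if_neg (by omega),
    if_neg (by omega)]

theorem vf_lo (L r : ℕ) (h : r ≤ L) : vf L r = vh L r := if_pos h
theorem bf_lo (L r : ℕ) (h : r ≤ L) : bf L r = bh L r := if_pos h
theorem vf_hi (L r : ℕ) (hL : 6 ≤ L) (h : r ≤ L) : vf L (2 * L - r) = 2 - vh L r := by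
  unfold vf
  split_ifs with h1
  · have : r = L := by omega
    subst this
    have : 2 * r - r = r := by omega
    rw [this, vh_top _ hL]; norm_num
  · have : 2 * L - (2 * L - r) = r := by omega
    rw [this]
theorem bf_hi (L r : ℕ) (h : r ≤ L) : bf L (2 * L - r) = bh L r := by
  unfold bf
  split_ifs with h1
  · have : r = L := by omega
    subst this
    have : 2 * r - r = r := by omega
    rw [this]
  · have : 2 * L - (2 * L - r) = r := by omega
    rw [this]

theorem vh_vals (L i : ℕ) : vh L i = 1 ∨ vh L i = 3 ∨ vh L i = -1 := by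
  unfold vh; split_ifs <;> simp

theorem good_two_pow (a u : ℕ) (ha : 4 ≤ a) (hu : Nat.Coprime u 6) : Good (2 ^ a * u + 1) := by
  obtain ⟨c, rfl⟩ : ∃ c, a = c + 1 := ⟨a - 1, by omega⟩
  set L := 2 ^ c with hLdef
  have hg : 2 ^ (c + 1) = 2 * L := by rw [pow_succ, mul_comm]
  have hL8 : 8 ≤ L := by
    calc 8 = 2 ^ 3 := by norm_num
      _ ≤ 2 ^ c := Nat.pow_le_pow_right (by norm_num) (by omega)
  have hL2 : L % 2 = 0 := by
    rw [hLdef]
    obtain ⟨d, rfl⟩ : ∃ d, c = d + 1 := ⟨c - 1, by omega⟩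
    rw [pow_succ]; omega
  have hu2c : Nat.Coprime u 2 := Nat.Coprime.coprime_dvd_right (by norm_num) hu
  have hu3c : Nat.Coprime u 3 := Nat.Coprime.coprime_dvd_right (by norm_num) hu
  have hu2 : u % 2 = 1 := by
    rcases Nat.mod_two_eq_zero_or_one u with h | h
    · exfalso
      have h2 : 2 ∣ u.gcd 2 := Nat.dvd_gcd (Nat.dvd_of_mod_eq_zero h) (dvd_refl _)
      rw [hu2c] at h2
      omega
    · exact h
  have c2 : IsCoprime (u : ℤ) 2 := by
    have := Nat.isCoprime_iff_coprime.2 hu2c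
    exact_mod_cast this
  have c3 : IsCoprime (u : ℤ) 3 := by
    have := Nat.isCoprime_iff_coprime.2 hu3c
    exact_mod_cast this
  have c1 : IsCoprime (u : ℤ) 1 := isCoprime_one_right
  have c4 : IsCoprime (u : ℤ) 4 := by
    have : (4 : ℤ) = 2 * 2 := by norm_num
    rw [this]; exact c2.mul_right c2
  have hgu : Nat.Coprime (2 ^ (c + 1)) u := (Nat.Coprime.pow_left _ hu2c.symm)
  have hgz : ((2 ^ (c + 1) : ℕ) : ℤ) = 2 * (L : ℤ) := by rw [hg]; push_cast; ring
  have hgh : 2 ^ (c + 1) / 2 = L := by rw [hg]; omega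
  have cv : ∀ z : ℤ, (z = 1 ∨ z = 3 ∨ z = -1 ∨ z = -3) → IsCoprime (u : ℤ) z := by
    rintro z (rfl | rfl | rfl | rfl)
    · exact c1
    · exact c3
    · exact c1.neg_right
    · exact c3.neg_right
  have cd : ∀ z : ℤ, (z = 2 ∨ z = -2 ∨ z = 4 ∨ z = -4) → IsCoprime (u : ℤ) z := by
    rintro z (rfl | rfl | rfl | rfl)
    · exact c2
    · exact c2.neg_right
    · exact c4
    · exact c4.neg_right
  have vfv : ∀ r, vf L r = 1 ∨ vf L r = 3 ∨ vf L r = -1 := by
    intro r
    unfold vf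
    split_ifs
    · exact vh_vals L r
    · rcases vh_vals L (2 * L - r) with h | h | h <;> rw [h] <;> norm_num
  -- pairing on one side
  have hT2 : ∀ r s, r < 2 ^ (c + 1) → s < 2 ^ (c + 1) →
      ((2 ^ (c + 1) : ℕ) : ℤ) ∣ T r - T s - ((2 ^ (c + 1) / 2 : ℕ) : ℤ) →
      r + s + 1 = 2 * L := by
    intro r s hr hs h
    have := T_pair (c + 1) (by omega) r s hr hs h
    omega
  have hpX : ∀ r, r < L → |vf L r| = |vf L (2 * L - (r + 1))| ∧
      nrm (2 * L) (vf L r) (bf L r) r =
        nrm (2 * L) (vf L (2 * L - (r + 1))) (bf L (2 * L - (r + 1))) (2 * L - 1 - r) := by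
    intro r hr
    rw [vf_lo L r hr.le, bf_lo L r hr.le, vf_hi L (r + 1) (by omega) hr, bf_hi L (r + 1) hr]
    obtain ⟨h1, h2, h3⟩ := chain_nrm L r hL2 (by omega) hr
    exact ⟨h1, h2⟩
  have hpZ : ∀ r, r < L → |vf L (r + 1) - 2| = |vf L (2 * L - r) - 2| ∧
      nrm (2 * L) (vf L (r + 1) - 2) (bf L (r + 1) + vf L (r + 1) - 2) r =
        nrm (2 * L) (vf L (2 * L - r) - 2) (bf L (2 * L - r) + vf L (2 * L - r) - 2)
          (2 * L - 1 - r) := by
    intro r hr
    rw [vf_lo L (r + 1) hr, bf_lo L (r + 1) hr, vf_hi L r (by omega) hr.le, bf_hi L r hr.le]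
    obtain ⟨h1, h2, h3⟩ := chain_nrm L r hL2 (by omega) hr
    have e1 : 2 - vh L r - 2 = - vh L r := by ring
    have e2 : bh L r + (2 - vh L r) - 2 = bh L r - vh L r := by ring
    rw [e1, e2, abs_neg]
    refine ⟨?_, h3⟩
    rw [h1, abs_sub_comm]
  apply lift (2 ^ (c + 1)) u (by rw [hg]; omega) (by omega) hu2 hgu T (vf L) (bf L)
  · rw [hgh, hgz]
    refine ⟨L, ?_⟩
    have h1 := two_T (2 ^ (c + 1))
    have h0 := two_T 0
    rw [hgz] at h1
    push_cast at h0
    linarith
  · rw [hg]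
    have := vf_hi L 0 (by omega) (by omega)
    simp only [Nat.sub_zero] at this
    rw [this, vf_lo L 0 (by omega), vh_zero]; norm_num
  · rw [hg]
    have := bf_hi L 0 (by omega)
    simp only [Nat.sub_zero] at this
    rw [this, bf_lo L 0 (by omega)]
  · intro r hr
    apply cv
    rcases vfv r with h | h | h <;> rw [h] <;> norm_num
  · intro r hr
    apply cv
    rcases vfv (r + 1) with h | h | h <;> rw [h] <;> norm_num
  · intro r hr
    apply cd
    by_cases hr' : r < L
    · rw [vf_lo L r hr'.le, vf_lo L (r + 1) hr']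
      rcases chain L r hL2 (by omega) hr' with ⟨h1, h2, h3⟩ | ⟨h1, h2, h3⟩ | ⟨h1, h2, h3⟩ |
        ⟨h1, h2, h3⟩ <;> rw [h1, h2] <;> norm_num
    · obtain ⟨q, hq⟩ : ∃ q, r = 2 * L - (q + 1) := ⟨2 * L - 1 - r, by omega⟩
      have hq' : q < L := by omega
      have e : r + 1 = 2 * L - q := by omega
      rw [e, hq, vf_hi L q (by omega) hq'.le, vf_hi L (q + 1) (by omega) hq']
      rcases chain L q hL2 (by omega) hq' with ⟨h1, h2, h3⟩ | ⟨h1, h2, h3⟩ | ⟨h1, h2, h3⟩ |
        ⟨h1, h2, h3⟩ <;> rw [h1, h2] <;> norm_num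
  · intro r hr s hs h
    exact T_inj (c + 1) r s hr hs h
  · intro r hr s hs h
    have hrs := hT2 r s hr hs h
    rw [hgz]
    by_cases hr' : r < L
    · have e : s = 2 * L - (r + 1) := by omega
      have e2 : (s : ℤ) = 2 * L - 1 - r := by omega
      obtain ⟨h1, h2⟩ := hpX r hr'
      rw [e2, e]
      exact ⟨h1, h2⟩
    · have hs' : s < L := by omega
      have e : r = 2 * L - (s + 1) := by omega
      have e2 : (r : ℤ) = 2 * L - 1 - s := by omega
      obtain ⟨h1, h2⟩ := hpX s hs'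
      rw [e2, e]
      exact ⟨h1.symm, h2.symm⟩
  · intro r hr s hs h
    rw [T_succ, T_succ, add_sub_cancel_right, add_sub_cancel_right] at h
    exact T_inj (c + 1) r s hr hs h
  · intro r hr s hs h
    rw [T_succ, T_succ, add_sub_cancel_right, add_sub_cancel_right] at h
    have hrs := hT2 r s hr hs h
    rw [hgz]
    by_cases hr' : r < L
    · have e : s + 1 = 2 * L - r := by omega
      have e2 : (s : ℤ) = 2 * L - 1 - r := by omega
      obtain ⟨h1, h2⟩ := hpZ r hr'
      rw [e2, e]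
      exact ⟨h1, h2⟩
    · have hs' : s < L := by omega
      have e : r + 1 = 2 * L - s := by omega
      have e2 : (r : ℤ) = 2 * L - 1 - s := by omega
      obtain ⟨h1, h2⟩ := hpZ s hs'
      rw [e2, e]
      exact ⟨h1.symm, h2.symm⟩
  · intro r hr s hs h
    rw [T_succ, T_succ] at h
    have e : (T r + ((r : ℤ) + 1) - T r) - (T s + ((s : ℤ) + 1) - T s) = (r : ℤ) - s := by ring
    rw [e] at h
    obtain ⟨q, hq⟩ := h
    have hr' : (r : ℤ) < ((2 ^ (c + 1) : ℕ) : ℤ) := by exact_mod_cast hr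
    have hs' : (s : ℤ) < ((2 ^ (c + 1) : ℕ) : ℤ) := by exact_mod_cast hs
    have : q = 0 := by
      by_contra hne
      rcases lt_or_gt_of_ne hne with h | h
      · have : ((2 ^ (c + 1) : ℕ) : ℤ) * q ≤ -((2 ^ (c + 1) : ℕ) : ℤ) := by nlinarith
        omega
      · have : ((2 ^ (c + 1) : ℕ) : ℤ) ≤ ((2 ^ (c + 1) : ℕ) : ℤ) * q := by nlinarith
        omega
    rw [this, mul_zero] at hq
    omega
  · have : T 1 - T 0 - 1 = 0 := by simp [T]
    rw [this]; exact dvd_zero _
  · rw [vf_lo L 1 (by omega), bf_lo L 1 (by omega), bf_lo L 0 (by omega), bh_zero]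
    rcases chain L 0 hL2 (by omega) (by omega) with ⟨h1, h2, h3⟩ | ⟨h1, h2, h3⟩ | ⟨h1, h2, h3⟩ |
        ⟨h1, h2, h3⟩
    · rw [zero_add] at h2 h3
      rw [h2, h3, bh_zero]; norm_num
    all_goals (rw [vh_zero] at h1; norm_num at h1)
  · have e : T (2 ^ (c + 1)) - T (2 ^ (c + 1) - 1) = ((2 ^ (c + 1) : ℕ) : ℤ) := by
      have h1 := T_succ (2 ^ (c + 1) - 1)
      have h2 : 2 ^ (c + 1) - 1 + 1 = 2 ^ (c + 1) := by omega
      have h3 : ((2 ^ (c + 1) - 1 : ℕ) : ℤ) = ((2 ^ (c + 1) : ℕ) : ℤ) - 1 := by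
        rw [Nat.cast_sub (by omega)]; rfl
      rw [h2, h3] at h1
      linarith
    rw [e]
  · have e : 2 ^ (c + 1) - 1 = 2 * L - 1 := by omega
    rw [e, vf_hi L 1 (by omega) (by omega), bf_hi L 1 (by omega), bf_lo L 0 (by omega), bh_zero]
    rcases chain L 0 hL2 (by omega) (by omega) with ⟨h1, h2, h3⟩ | ⟨h1, h2, h3⟩ | ⟨h1, h2, h3⟩ |
        ⟨h1, h2, h3⟩
    · rw [zero_add] at h2 h3
      rw [h2, h3, bh_zero]; norm_num
    all_goals (rw [vh_zero] at h1; norm_num at h1)

end DNeo
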