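import Mathlib
import Pool.Agent.Lib.MP_162c7e_co.Certs2
import Pool.Agent.Lib.MP_162c7e_co.TK

/-!
The product families: moduli `g * u` with `g` even and `u` prime to `6`.
-/

set_option autoImplicit false

namespace DNeo

theorem good_product (g u : ℕ) (hg : g % 2 = 0) (hu : Nat.Coprime u 6)
    (h : (12 ≤ g ∧ g ≤ 56) ∨ (∃ a, 3 ≤ a ∧ g = 2 ^ a)) : Good (g * u + 1) := by
  have key : ∀ (c : Cert) (g u : ℕ), Nat.Coprime u 6 → c.ok 6 = true → c.g = g →
      Good (g * u + 1) := by
    intro c g u hu hc hcg
    have := cert_sound 6 c hc u hu.symm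
    rwa [hcg] at this
  rcases h with ⟨h1, h2⟩ | ⟨a, ha, rfl⟩
  · interval_cases g <;> first
      | (exfalso; omega)
      | exact good_two_pow 4 u (by norm_num) hu
      | exact good_two_pow 5 u (by norm_num) hu
      | exact key _ _ _ hu cert12_ok rfl
      | exact key _ _ _ hu cert14_ok rfl
      | exact key _ _ _ hu cert18_ok rfl
      | exact key _ _ _ hu cert20_ok rfl
      | exact key _ _ _ hu cert22_ok rfl
      | exact key _ _ _ hu cert24_ok rfl
      | exact key _ _ _ hu cert26_ok rfl
      | exact key _ _ _ hu cert28_ok rfl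
      | exact key _ _ _ hu cert30_ok rfl
      | exact key _ _ _ hu cert34_ok rfl
      | exact key _ _ _ hu cert36_ok rfl
      | exact key _ _ _ hu cert38_ok rfl
      | exact key _ _ _ hu cert40_ok rfl
      | exact key _ _ _ hu cert42_ok rfl
      | exact key _ _ _ hu cert44_ok rfl
      | exact key _ _ _ hu cert46_ok rfl
      | exact key _ _ _ hu cert48_ok rfl
      | exact key _ _ _ hu cert50_ok rfl
      | exact key _ _ _ hu cert52_ok rfl
      | exact key _ _ _ hu cert54_ok rfl
      | exact key _ _ _ hu cert56_ok rfl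
  · rcases Nat.lt_or_ge a 4 with h4 | h4
    · have ha3 : a = 3 := by omega
      subst ha3
      rcases Nat.coprime_or_dvd_of_prime (show Nat.Prime 5 by norm_num) u with h5 | h5
      · have h30 : Nat.Coprime 30 u := by
          have h2 : Nat.Coprime u (5 * 6) := Nat.Coprime.mul_right h5.symm hu
          have e : 30 = 5 * 6 := by norm_num
          rw [e]; exact h2.symm
        exact cert_sound 30 cert8 cert8_ok u h30
      · obtain ⟨t, rfl⟩ := h5
        have ht : Nat.Coprime t 6 := Nat.Coprime.coprime_mul_left hu
        have := key cert40 40 t ht cert40_ok rfl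
        have e : 2 ^ 3 * (5 * t) + 1 = 40 * t + 1 := by ring
        rw [e]; exact this
    · exact good_two_pow a u h4 hu

end DNeo
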